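import Pool.Agent.Lib.MP_fb3619_al.H4.Aba

/-!
# MP_fb3619_al: theorem AB1 (finding 4327), a subgroup of finite index of `C_K(a)`
-/

set_option autoImplicit false

universe u

namespace Pool.Agent.FourGp.FF.Abo

open Pool.Agent.FourGp.H47 (Odd' inv_of_sq conj_inv_pow mul_inv_self odd_conj comm_of_inv
  mul_inv_self' comm_pow comm_inv conj_comm comm_conj)

variable {G : Type u} [Group G] {K : Subgroup G} {a b c : G}

/-- A subgroup of finite index of `C_K(a)`, normal in it and invariant under the four-group. -/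
structure XS (K : Subgroup G) (a b : G) (X : Subgroup G) : Prop where
  le : X ≤ Cz K a
  ind : X.relIndex (Cz K a) ≠ 0
  nor : ∀ d ∈ Cz K a, ∀ x ∈ X, d⁻¹ * x * d ∈ X
  inv : ∀ x ∈ X, b * x * b ∈ X

/-- inverted elements of `C_K(a)` -/
def Mi (K : Subgroup G) (a b u : G) : Prop := u ∈ Cz K a ∧ b * u * b = u⁻¹

theorem mi_fi (hS : ShuS.{u}) (h : Fr K a b c) (hF : (Fx K a b : Set G).Finite) {u : G}
    (hu : Mi K a b u) : fi (Cz K a) u := by
  refine (hS G K a b c h (Cz K a) b cz_le h.bb (fun d hd => h.cz_inv h.bb h.cab.symm hd) ?_).1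
    u hu.1 hu.2
  refine hF.subset ?_
  rintro w ⟨hw, hwb⟩
  exact mem_Fx.2 ⟨(mem_Cz.1 hw).1, (mem_Cz.1 hw).2, hwb⟩

theorem xs_cent (hS : ShuS.{u}) (h : Fr K a b c) (hF : (Fx K a b : Set G).Finite)
    {X : Subgroup G} (hX : XS K a b X) (S : Set G) (hSf : S.Finite) (hSi : ∀ s ∈ S, Mi K a b s) :
    XS K a b (X ⊓ Subgroup.centralizer {x | ∃ s ∈ S, ∃ g ∈ Cz K a, x = g⁻¹ * s * g}) := by
  classical
  set D := Cz K a with hD
  set U : Set G := {x | ∃ s ∈ S, ∃ g ∈ D, x = g⁻¹ * s * g} with hUdef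
  have hDb : ∀ u ∈ D, b * u * b ∈ D := fun u hu => h.cz_inv h.bb h.cab.symm hu
  have hU : U.Finite := by
    refine (hSf.biUnion fun s hs => fi_finite (mi_fi hS h hF (hSi s hs))).subset ?_
    rintro x ⟨s, hs, g, hg, rfl⟩
    rw [Set.mem_iUnion]
    refine ⟨s, ?_⟩
    rw [Set.mem_iUnion]
    exact ⟨hs, g, hg, rfl⟩
  have hUfi : ∀ x ∈ hU.toFinset, fi D x := by
    intro x hx
    rw [Set.Finite.mem_toFinset] at hx
    obtain ⟨s, hs, g, hg, rfl⟩ := hx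
    refine fi_conj ?_ (mi_fi hS h hF (hSi s hs))
    intro d hd
    exact D.mul_mem (D.mul_mem hg hd) (D.inv_mem hg)
  have hCi := relIndex_centralizer hU.toFinset hUfi
  rw [Set.Finite.coe_toFinset] at hCi
  refine ⟨inf_le_left.trans hX.le, Subgroup.relIndex_inf_ne_zero hX.ind hCi, ?_, ?_⟩
  · rintro d hd x ⟨hx, hxU⟩
    refine ⟨hX.nor d hd x hx, ?_⟩
    have hxU' := Subgroup.mem_centralizer_iff.1 hxU
    refine Subgroup.mem_centralizer_iff.2 ?_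
    rintro _ ⟨s, hs, g, hg, rfl⟩
    have h1 := hxU' ((g * d⁻¹)⁻¹ * s * (g * d⁻¹))
      ⟨s, hs, g * d⁻¹, D.mul_mem hg (D.inv_mem hd), rfl⟩
    calc g⁻¹ * s * g * (d⁻¹ * x * d)
        = d⁻¹ * ((g * d⁻¹)⁻¹ * s * (g * d⁻¹) * x) * d := by group
      _ = d⁻¹ * (x * ((g * d⁻¹)⁻¹ * s * (g * d⁻¹))) * d := by rw [h1]
      _ = d⁻¹ * x * d * (g⁻¹ * s * g) := by group
  · rintro x ⟨hx, hxU⟩
    refine ⟨hX.inv x hx, ?_⟩
    have hxU' := Subgroup.mem_centralizer_iff.1 hxU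
    refine Subgroup.mem_centralizer_iff.2 ?_
    rintro _ ⟨s, hs, g, hg, rfl⟩
    have h1 := hxU' ((b * g * b)⁻¹ * s * (b * g * b)) ⟨s, hs, b * g * b, hDb g hg, rfl⟩
    have e1 : b * (g⁻¹ * s * g) * b = ((b * g * b)⁻¹ * s * (b * g * b))⁻¹ := by
      rw [cj_mul h.bb, cj_mul h.bb, cj_inv h.bb, (hSi s hs).2]; group
    have c1 : Commute ((b * g * b)⁻¹ * s * (b * g * b)) x := h1
    have c2 := c1.inv_left
    rw [← e1] at c2
    calc g⁻¹ * s * g * (b * x * b) = 1 * (g⁻¹ * s * g) * (b * x * b) := by group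
      _ = (b * b) * (g⁻¹ * s * g) * (b * x * b) := by rw [h.bb]
      _ = b * (b * (g⁻¹ * s * g) * b * x) * b := by group
      _ = b * (x * (b * (g⁻¹ * s * g) * b)) * b := by rw [c2.eq]
      _ = b * x * b * (g⁻¹ * s * g) * (b * b) := by group
      _ = b * x * b * (g⁻¹ * s * g) := by rw [h.bb, mul_one]

/-- representatives -/
theorem xs_rep {X : Subgroup G} (hX : X.relIndex (Cz K a) ≠ 0) :
    ∃ S : Set G, S.Finite ∧ (∀ s ∈ S, Mi K a b s) ∧ ∀ w, Mi K a b w → ∃ s ∈ S, w * s⁻¹ ∈ X := by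
  classical
  obtain ⟨R, -, hR⟩ := cover_of_relIndex hX
  have h1 : ∀ r : G, ∃ s : G, (∃ w, Mi K a b w ∧ w * r⁻¹ ∈ X) → Mi K a b s ∧ s * r⁻¹ ∈ X := by
    intro r
    by_cases hr : ∃ w, Mi K a b w ∧ w * r⁻¹ ∈ X
    · obtain ⟨w, hw⟩ := hr
      exact ⟨w, fun _ => hw⟩
    · exact ⟨1, fun h => absurd h hr⟩
  choose ρ hρ using h1
  refine ⟨ρ '' {r | r ∈ R ∧ ∃ w, Mi K a b w ∧ w * r⁻¹ ∈ X},
    (R.finite_toSet.subset fun r hr => hr.1).image ρ, ?_, ?_⟩
  · rintro _ ⟨r, ⟨-, hr⟩, rfl⟩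
    exact (hρ r hr).1
  · intro w hw
    obtain ⟨r, hr, h2⟩ := hR w hw.1
    have h3 : ∃ w, Mi K a b w ∧ w * r⁻¹ ∈ X := ⟨w, hw, h2⟩
    refine ⟨ρ r, ⟨r, ⟨hr, h3⟩, rfl⟩, ?_⟩
    have h4 := X.mul_mem h2 (X.inv_mem (hρ r h3).2)
    have e : w * r⁻¹ * (ρ r * r⁻¹)⁻¹ = w * (ρ r)⁻¹ := by group
    rwa [e] at h4

/-- The subgroup `X`. -/
theorem xs_ex (hS : ShuS.{u}) (h : Fr K a b c) (hF : (Fx K a b : Set G).Finite) :
    ∃ X : Subgroup G, XS K a b X ∧
      (∀ e ∈ X, e ∈ Fx K a b → ∀ u, Mi K a b u → e * u = u * e) ∧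
      (∀ w u, Mi K a b w → Mi K a b u → u ∈ X →
        ∃ e ∈ X, e ∈ Fx K a b ∧ u⁻¹ * w * u = e * w) := by
  classical
  set D := Cz K a with hD
  have hDb : ∀ u ∈ D, b * u * b ∈ D := fun u hu => h.cz_inv h.bb h.cab.symm hu
  have hP0 : XS K a b D := by
    refine ⟨le_rfl, ?_, fun d hd x hx => D.mul_mem (D.mul_mem (D.inv_mem hd) hx) hd, hDb⟩
    rw [Subgroup.relIndex_self]
    exact one_ne_zero
  have hex : ∃ n, ∃ X, XS K a b X ∧ Nat.card (X ⊓ Fx K a b : Subgroup G) = n :=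
    ⟨_, D, hP0, rfl⟩
  obtain ⟨X, hX, hcard⟩ := Nat.find_spec hex
  have hmin : ∀ X', XS K a b X' → Nat.card (X ⊓ Fx K a b : Subgroup G) ≤
      Nat.card (X' ⊓ Fx K a b : Subgroup G) := by
    intro X' hX'
    rw [hcard]
    exact Nat.find_min' hex ⟨X', hX', rfl⟩
  have hFfin : Finite (X ⊓ Fx K a b : Subgroup G) := by
    refine (hF.subset ?_).to_subtype
    intro x hx
    exact hx.2
  -- passing to the centralizer does not change the intersection with `F`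
  have hpass : ∀ S : Set G, S.Finite → (∀ s ∈ S, Mi K a b s) →
      ∀ e ∈ X, e ∈ Fx K a b →
        e ∈ X ⊓ Subgroup.centralizer {x | ∃ s ∈ S, ∃ g ∈ D, x = g⁻¹ * s * g} := by
    intro S hSf hSi e he heF
    have hP' := xs_cent hS h hF hX S hSf hSi
    have hle : (X ⊓ Subgroup.centralizer {x | ∃ s ∈ S, ∃ g ∈ D, x = g⁻¹ * s * g}) ⊓ Fx K a b ≤
        X ⊓ Fx K a b := inf_le_inf_right _ inf_le_left
    have heq := Subgroup.eq_of_le_of_card_ge hle (hmin _ hP')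
    have h1 : e ∈ X ⊓ Fx K a b := ⟨he, heF⟩
    rw [← heq] at h1
    exact h1.1
  have hcent : ∀ e ∈ X, e ∈ Fx K a b → ∀ u, Mi K a b u → e * u = u * e := by
    intro e he heF u hu
    have h1 := hpass {u} (Set.finite_singleton u) (by
      intro s hs
      rw [Set.mem_singleton_iff] at hs
      rw [hs]; exact hu) e he heF
    exact (Subgroup.mem_centralizer_iff.1 h1.2 u
      ⟨u, rfl, 1, D.one_mem, by group⟩).symm
  -- commutators of inverted elements of `X`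
  have hcomm : ∀ s u, s ∈ X → u ∈ X → Mi K a b s → Mi K a b u →
      ∃ e ∈ X, e ∈ Fx K a b ∧ u⁻¹ * s * u = e * s := by
    intro s u hs hu hsi hui
    obtain ⟨q, r, hq, hr, e, h1, h2⟩ := h.dec (X := X) (hX.le.trans cz_le) h.bb hX.inv
      (X.mul_mem hs hu)
    have hqF : q ∈ Fx K a b := mem_Fx.2 ⟨(mem_Cz.1 (hX.le hq)).1, (mem_Cz.1 (hX.le hq)).2, h1⟩
    have e1 : s⁻¹ * u⁻¹ = q * r⁻¹ := by
      rw [← hsi.2, ← hui.2, ← cj_mul h.bb, e, cj_mul h.bb, h2, cj_fix h.bb h1]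
    have c1 : Commute q r := hcent q hq hqF r ⟨hX.le hr, h2⟩
    have c2 : Commute q u := hcent q hq hqF u hui
    refine ⟨q * q, X.mul_mem hq hq, (Fx K a b).mul_mem hqF hqF, ?_⟩
    have e2 : u * s = q⁻¹ * r := by
      calc u * s = (s⁻¹ * u⁻¹)⁻¹ := by group
        _ = r * q⁻¹ := by rw [e1]; group
        _ = q⁻¹ * r := (c1.inv_left.eq).symm
    have e3 : s * u = q * q * (u * s) := by
      rw [e2, e]; group
    calc u⁻¹ * s * u = u⁻¹ * (s * u) := by group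
      _ = u⁻¹ * (q * q) * u * s := by rw [e3]; group
      _ = q * q * s := by
        have c3 : Commute (q * q) u := c2.mul_left c2
        rw [← (c3.inv_right).eq]; group
  obtain ⟨S, hSf, hSi, hSr⟩ := xs_rep (b := b) hX.ind
  refine ⟨X ⊓ Subgroup.centralizer {x | ∃ s ∈ S, ∃ g ∈ D, x = g⁻¹ * s * g},
    xs_cent hS h hF hX S hSf hSi, fun e he heF u hu => hcent e he.1 heF u hu, ?_⟩
  rintro w u hw hu ⟨huX, huU⟩
  obtain ⟨ρ, hρ, hx⟩ := hSr w hw
  have cuρ : ρ * u = u * ρ := Subgroup.mem_centralizer_iff.1 huU ρ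
    ⟨ρ, hρ, 1, D.one_mem, by group⟩
  obtain ⟨q, s, hq, hs, e, h1, h2⟩ := h.dec (X := X) (hX.le.trans cz_le) h.bb hX.inv hx
  have hqF : q ∈ Fx K a b := mem_Fx.2 ⟨(mem_Cz.1 (hX.le hq)).1, (mem_Cz.1 (hX.le hq)).2, h1⟩
  have hsi : Mi K a b s := ⟨hX.le hs, h2⟩
  obtain ⟨e', he', heF', e2⟩ := hcomm s u hs huX hsi hu
  have hwe : w = q * s * ρ := by
    rw [← e]; group
  have hqe : q * e' * q⁻¹ ∈ X := X.mul_mem (X.mul_mem hq he') (X.inv_mem hq)
  have hqeF : q * e' * q⁻¹ ∈ Fx K a b :=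
    (Fx K a b).mul_mem ((Fx K a b).mul_mem hqF heF') ((Fx K a b).inv_mem hqF)
  refine ⟨q * e' * q⁻¹, hpass S hSf hSi _ hqe hqeF, hqeF, ?_⟩
  have c1 : Commute q u := hcent q hq hqF u hu
  calc u⁻¹ * w * u = (u⁻¹ * q) * s * (ρ * u) := by rw [hwe]; group
    _ = (q * u⁻¹) * s * (u * ρ) := by rw [cuρ, c1.inv_right.eq]
    _ = q * (u⁻¹ * s * u) * ρ := by group
    _ = q * (e' * s) * ρ := by rw [e2]
    _ = (q * e' * q⁻¹) * (q * s * ρ) := by group
    _ = _ := by rw [← hwe]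

/-- Inverted elements of `C_K(a)` which commute with all such elements lie in `T_a`. -/
theorem tt_of (h : Fr K a b c) {s : G} (hs : Mi K a b s)
    (hc : ∀ u, Mi K a b u → s * u = u * s) : TT K a b c a s := by
  obtain ⟨hsK, hsa⟩ := mem_Cz.1 hs.1
  refine ⟨hsK, hsa, ?_⟩
  have key : ∀ z y g : G, z * s * z = s⁻¹ → g⁻¹ * z * g = y → Mi K a b g → y * s * y = s⁻¹ := by
    intro z y g hz hy hg
    have c1 : Commute s g := hc g hg
    calc y * s * y = g⁻¹ * z * (g * s) * g⁻¹ * z * g := by rw [← hy]; group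
      _ = g⁻¹ * z * (s * g) * g⁻¹ * z * g := by rw [c1.eq]
      _ = g⁻¹ * (z * s * z) * g := by group
      _ = g⁻¹ * (s⁻¹ * g) := by rw [hz]; group
      _ = g⁻¹ * (g * s⁻¹) := by rw [c1.inv_left.eq]
      _ = s⁻¹ := by group
  have hsc : c * s * c = s⁻¹ := h.swap.inv_c hsa hs.2
  rintro y (hy | hy | hy) hya hne
  · exact absurd (h.ty_eq hy h.ty_a hya) hne
  · obtain ⟨j, hj⟩ := h.rot.ty_cj h.rot.ty_a hy
    refine key b y _ hs.2 hj ⟨mem_Cz.2 ⟨K.pow_mem (h.rot.ty_mul h.rot.ty_a hy) j,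
      comm_pow h.cab.symm hya j⟩, conj_inv_pow h.bb (mul_inv_self h.bb hy.1) j⟩
  · obtain ⟨j, hj⟩ := h.rot.rot.ty_cj h.rot.rot.ty_a hy
    have h1 : ((c * y) ^ j) * a = a * (c * y) ^ j := comm_pow h.cac.symm hya j
    have h2 : c * ((c * y) ^ j) * c = ((c * y) ^ j)⁻¹ :=
      conj_inv_pow h.cc (mul_inv_self h.cc hy.1) j
    refine key c y _ hsc hj ⟨mem_Cz.2 ⟨K.pow_mem (h.rot.rot.ty_mul h.rot.rot.ty_a hy) j, h1⟩, ?_⟩
    exact h.rot.rot.inv_c h1 h2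

/-- The inverted elements of `C_K(a)` which centralize a subgroup of finite index. -/
theorem mfin (hS : ShuS.{u}) (h : Fr K a b c) (hF : (Fx K a b : Set G).Finite)
    (hT : ∀ t, TT K a b c a t → t = 1) {X : Subgroup G} (hX : XS K a b X) :
    {w | Mi K a b w ∧ ∀ x ∈ X, w * x = x * w}.Finite := by
  classical
  obtain ⟨S, hSf, hSi, hSr⟩ := xs_rep (b := b) hX.ind
  have hCi := relIndex_centralizer (D := Cz K a) hSf.toFinset (by
    intro t ht
    rw [Set.Finite.mem_toFinset] at ht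
    exact mi_fi hS h hF (hSi t ht))
  rw [Set.Finite.coe_toFinset] at hCi
  obtain ⟨R, -, hR⟩ := cover_of_relIndex hCi
  -- elements of `C_K(a)` centralizing `X` and `S` lie in `F`
  have key : ∀ v ∈ Cz K a, (∀ x ∈ X, v * x = x * v) → (∀ s ∈ S, v * s = s * v) →
      v ∈ Fx K a b := by
    intro v hv hvX hvS
    have hvM : ∀ u, Mi K a b u → v * u = u * v := by
      intro u hu
      obtain ⟨s, hs, h1⟩ := hSr u hu
      have c1 : Commute v (u * s⁻¹) := hvX _ h1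
      have c2 : Commute v s := hvS s hs
      have c3 := c1.mul_right c2
      have e : u * s⁻¹ * s = u := by group
      rw [e] at c3
      exact c3
    let Y : Subgroup G := Cz K a ⊓ Subgroup.centralizer {u | Mi K a b u}
    have hYb : ∀ x ∈ Y, b * x * b ∈ Y := by
      rintro x ⟨hx, hx'⟩
      refine ⟨h.cz_inv h.bb h.cab.symm hx, ?_⟩
      refine Subgroup.mem_centralizer_iff.2 fun u hu => ?_
      have hu' : Mi K a b u := hu
      have c1 : Commute u x := Subgroup.mem_centralizer_iff.1 hx' u hu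
      have c2 := c1.inv_left
      calc u * (b * x * b) = (b * b) * u * (b * x * b) := by rw [h.bb, one_mul]
        _ = b * ((b * u * b) * x) * b := by group
        _ = b * (x * u⁻¹) * b := by rw [hu'.2, c2.eq]
        _ = b * (x * (b * u * b)) * b := by rw [hu'.2]
        _ = (b * x * b) * u * (b * b) := by group
        _ = _ := by rw [h.bb, mul_one]
    have hvY : v ∈ Y := ⟨hv, Subgroup.mem_centralizer_iff.2 fun u hu => (hvM u hu).symm⟩
    obtain ⟨w, s, hw, hs, e, h1, h2⟩ := h.dec (X := Y) (inf_le_left.trans cz_le) h.bb hYb hvY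
    have hs1 : s = 1 := hT s (tt_of h ⟨hs.1, h2⟩ fun u hu =>
      (Subgroup.mem_centralizer_iff.1 hs.2 u hu).symm)
    rw [e, hs1, mul_one]
    exact mem_Fx.2 ⟨(mem_Cz.1 hw.1).1, (mem_Cz.1 hw.1).2, h1⟩
  have h1 : ∀ r : G, ∃ w₀ : G, ∀ w, Mi K a b w → (∀ x ∈ X, w * x = x * w) →
      w * r⁻¹ ∈ Subgroup.centralizer S → w * w₀⁻¹ ∈ Fx K a b := by
    intro r
    by_cases hr : ∃ w, Mi K a b w ∧ (∀ x ∈ X, w * x = x * w) ∧
        w * r⁻¹ ∈ Subgroup.centralizer S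
    · obtain ⟨w₀, h2, h3, h4⟩ := hr
      refine ⟨w₀, fun w h5 h6 h7 => ?_⟩
      refine key _ ((Cz K a).mul_mem h5.1 ((Cz K a).inv_mem h2.1)) ?_ ?_
      · intro x hx
        have c1 : Commute w x := h6 x hx
        have c2 : Commute w₀ x := h3 x hx
        exact c1.mul_left c2.inv_left
      · intro s hs
        have h8 := (Subgroup.centralizer S).mul_mem h7 ((Subgroup.centralizer S).inv_mem h4)
        have e : w * r⁻¹ * (w₀ * r⁻¹)⁻¹ = w * w₀⁻¹ := by group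
        rw [e] at h8
        exact (Subgroup.mem_centralizer_iff.1 h8 s hs).symm
    · exact ⟨1, fun w h5 h6 h7 => absurd ⟨w, h5, h6, h7⟩ hr⟩
  choose w₀ hw₀ using h1
  refine (Set.Finite.image2 (fun f w => f * w) hF (R.finite_toSet.image w₀)).subset ?_
  rintro w ⟨hw, hwX⟩
  obtain ⟨r, hr, h2⟩ := hR w hw.1
  exact ⟨w * (w₀ r)⁻¹, hw₀ r w hw hwX h2, w₀ r, ⟨r, hr, rfl⟩, by simp⟩

end Pool.Agent.FourGp.FF.Abo
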