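import Pool.Agent.Lib.MP_fb3619_al.H4.Abc

/-!
# MP_fb3619_al: theorem AB1 (finding 4327), commensurability
-/

set_option autoImplicit false

universe u v

namespace Pool.Agent.FourGp.FF.Abo

open Pool.Agent.FourGp.H47 (Odd' inv_of_sq conj_inv_pow mul_inv_self odd_conj comm_of_inv
  mul_inv_self' comm_pow comm_inv conj_comm comm_conj)
open Pool.Agent.FourGp.H99 (LF LF_ext LF_of_surj)
open scoped Pointwise

variable {G : Type u} [Group G] {K : Subgroup G} {a b c : G}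

/-- B. H. Neumann's lemma. -/
theorem neum {D : Subgroup G} {ι : Type v} (s : Set ι) (hs : s.Finite) (g : ι → G)
    (hg : ∀ i ∈ s, g i ∈ D) (H : ι → Subgroup G)
    (hcov : ∀ d ∈ D, ∃ i ∈ s, (g i)⁻¹ * d ∈ H i) : ∃ i ∈ s, (H i).relIndex D ≠ 0 := by
  classical
  let g' : ι → D := fun i => if hi : g i ∈ D then ⟨g i, hi⟩ else 1
  have hg' : ∀ i ∈ s, ((g' i : D) : G) = g i := by
    intro i hi
    simp only [g', dif_pos (hg i hi)]
  have hcov' : ⋃ i ∈ hs.toFinset, g' i • (((H i).subgroupOf D : Subgroup D) : Set D) =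
      Set.univ := by
    rw [Set.eq_univ_iff_forall]
    intro y
    obtain ⟨i, hi, h1⟩ := hcov y y.2
    rw [Set.mem_iUnion]
    refine ⟨i, ?_⟩
    rw [Set.mem_iUnion]
    refine ⟨hs.mem_toFinset.2 hi, (g' i)⁻¹ * y, ?_, ?_⟩
    · rw [SetLike.mem_coe, Subgroup.mem_subgroupOf]
      push_cast
      rw [hg' i hi]
      exact h1
    · show g' i * ((g' i)⁻¹ * y) = y
      group
  have h3 := Subgroup.leftCoset_cover_filter_FiniteIndex hcov'
  have h4 : (1 : D) ∈ (Set.univ : Set D) := trivial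
  rw [← h3, Set.mem_iUnion] at h4
  obtain ⟨p, hp⟩ := h4
  rw [Set.mem_iUnion] at hp
  obtain ⟨hp, -⟩ := hp
  rw [Finset.mem_filter] at hp
  exact ⟨p, hs.mem_toFinset.1 hp.1, hp.2.index_ne_zero⟩

theorem cz_conj (h : Fr K a b c) {x g : G} (k : G) (hg : g ∈ Cz K x) :
    k⁻¹ * g * k ∈ Cz K (k⁻¹ * x * k) := by
  rw [mem_Cz] at hg ⊢
  refine ⟨h.cjk hg.1, ?_⟩
  calc k⁻¹ * g * k * (k⁻¹ * x * k) = k⁻¹ * (g * x) * k := by group
    _ = k⁻¹ * (x * g) * k := by rw [hg.2]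
    _ = _ := by group

theorem rel_conj (h : Fr K a b c) {x y : G} (k : G) (hr : (Cz K x).relIndex (Cz K y) ≠ 0) :
    (Cz K (k⁻¹ * x * k)).relIndex (Cz K (k⁻¹ * y * k)) ≠ 0 := by
  classical
  obtain ⟨R, -, hR⟩ := cover_of_relIndex hr
  refine relIndex_of_cover ((fun r => k⁻¹ * r * k) '' (R : Set G)) (R.finite_toSet.image _) ?_
  intro g hg
  have h1 := cz_conj h k⁻¹ hg
  have e1 : k⁻¹⁻¹ * (k⁻¹ * y * k) * k⁻¹ = y := by group
  have e2 : k⁻¹⁻¹ * g * k⁻¹ = k * g * k⁻¹ := by group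
  rw [e1, e2] at h1
  obtain ⟨r, hr, h2⟩ := hR _ h1
  refine ⟨_, ⟨r, hr, rfl⟩, ?_⟩
  have h3 := cz_conj h k h2
  have e3 : k⁻¹ * (k * g * k⁻¹ * r⁻¹) * k = g * (k⁻¹ * r * k)⁻¹ := by group
  rwa [e3] at h3

/-- The involutions of type `b` whose centralizer is commensurable with that of `b`. -/
def Lb (K : Subgroup G) (b : G) : Set G :=
  {y | Ty K b y ∧ (Cz K y).relIndex (Cz K b) ≠ 0 ∧ (Cz K b).relIndex (Cz K y) ≠ 0}

/-- Periodicity: one of the two conditions is enough. -/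
theorem lb_of (h : Fr K a b c) {k : G} (hk : k ∈ K)
    (h1 : (Cz K (k⁻¹ * b * k)).relIndex (Cz K b) ≠ 0) : k⁻¹ * b * k ∈ Lb K b := by
  refine ⟨h.rot.ty_conj h.rot.ty_a hk, h1, ?_⟩
  have step : ∀ n : ℕ, (Cz K ((k ^ (n + 1))⁻¹ * b * k ^ (n + 1))).relIndex
      (Cz K ((k ^ n)⁻¹ * b * k ^ n)) ≠ 0 := by
    intro n
    have h2 := rel_conj h (k ^ n) h1
    have e : (k ^ n)⁻¹ * (k⁻¹ * b * k) * k ^ n = (k ^ (n + 1))⁻¹ * b * k ^ (n + 1) := by
      rw [pow_succ']; group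
    rwa [e] at h2
  have chain : ∀ n : ℕ, (Cz K ((k ^ (n + 1))⁻¹ * b * k ^ (n + 1))).relIndex
      (Cz K (k⁻¹ * b * k)) ≠ 0 := by
    intro n
    induction n with
    | zero =>
      rw [zero_add, pow_one, Subgroup.relIndex_self]
      exact one_ne_zero
    | succ n ih => exact Subgroup.relIndex_ne_zero_trans (step (n + 1)) ih
  obtain ⟨n, hn⟩ := h.odd k hk
  have h3 := chain (2 * n)
  rw [hn] at h3
  have e : (1 : G)⁻¹ * b * 1 = b := by group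
  rwa [e] at h3

theorem b_mem_lb (h : Fr K a b c) : b ∈ Lb K b := by
  refine ⟨h.rot.ty_a, ?_, ?_⟩ <;>
  · rw [Subgroup.relIndex_self]
    exact one_ne_zero

/-- The stabilizer. -/
theorem lb_ns (h : Fr K a b c) {k : G} (hk : k ∈ K) (h1 : k⁻¹ * b * k ∈ Lb K b) :
    k ∈ NS (Lb K b) := by
  have key : ∀ g ∈ K, g⁻¹ * b * g ∈ Lb K b → ∀ y ∈ Lb K b, g⁻¹ * y * g ∈ Lb K b := by
    rintro g hg ⟨h2, h3, h4⟩ y ⟨h5, h6, h7⟩
    exact ⟨h.rot.ty_conj h5 hg, Subgroup.relIndex_ne_zero_trans (rel_conj h g h6) h3,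
      Subgroup.relIndex_ne_zero_trans h4 (rel_conj h g h7)⟩
  have h2 : k⁻¹⁻¹ * b * k⁻¹ ∈ Lb K b := by
    refine lb_of h (K.inv_mem hk) ?_
    have h3 := rel_conj h k⁻¹ h1.2.2
    have e : k⁻¹⁻¹ * (k⁻¹ * b * k) * k⁻¹ = b := by group
    rwa [e] at h3
  intro t
  refine ⟨fun ht => key k hk h1 t ht, fun ht => ?_⟩
  have h3 := key k⁻¹ (K.inv_mem hk) h2 _ ht
  have e : k⁻¹⁻¹ * (k⁻¹ * t * k) * k⁻¹ = t := by group
  rwa [e] at h3

theorem ns_lb (h : Fr K a b c) {k : G} (h1 : k ∈ NS (Lb K b)) : k⁻¹ * b * k ∈ Lb K b :=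
  (h1 b).1 (b_mem_lb h)

theorem cz_ns (h : Fr K a b c) : Cz K b ≤ NS (Lb K b) := by
  intro g hg
  refine lb_ns h (mem_Cz.1 hg).1 ?_
  have e : g⁻¹ * b * g = b := conj_comm (mem_Cz.1 hg).2
  rw [e]
  exact b_mem_lb h

/-- `Lb` is invariant under an involution commuting with `b`. -/
theorem lb_inv (h : Fr K a b c) {z : G} (hz : z * z = 1) (hzb : z * b = b * z) :
    ∀ y ∈ Lb K b, z * y * z ∈ Lb K b := by
  rintro y ⟨h1, h2, h3⟩
  have e1 : z⁻¹ = z := inv_of_sq hz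
  have e2 : z * b * z = b := by rw [hzb, mul_assoc, hz, mul_one]
  refine ⟨Uu.ty_z h hz hzb h1, ?_, ?_⟩
  · have h4 := rel_conj h z h2
    rw [e1, e2] at h4
    exact h4
  · have h4 := rel_conj h z h3
    rw [e1, e2] at h4
    exact h4

/-- A product of a locally finite subgroup and a locally finite subgroup normalised by it. -/
theorem LF_prod {B N : Subgroup G} (hBN : ∀ w ∈ B, ∀ n ∈ N, w⁻¹ * n * w ∈ N) (hB : LF B)
    (hN : LF N) : ∃ S : Subgroup G, (∀ w ∈ B, ∀ n ∈ N, w * n ∈ S) ∧ LF S := by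
  let S : Subgroup G :=
    { carrier := {k | ∃ w ∈ B, ∃ n ∈ N, k = w * n}
      mul_mem' := by
        rintro _ _ ⟨w, hw, n, hn, rfl⟩ ⟨w', hw', n', hn', rfl⟩
        exact ⟨w * w', B.mul_mem hw hw', w'⁻¹ * n * w' * n', N.mul_mem (hBN w' hw' n hn) hn',
          by group⟩
      one_mem' := ⟨1, B.one_mem, 1, N.one_mem, by group⟩
      inv_mem' := by
        rintro _ ⟨w, hw, n, hn, rfl⟩
        refine ⟨w⁻¹, B.inv_mem hw, w * n⁻¹ * w⁻¹, ?_, by group⟩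
        have := hBN w⁻¹ (B.inv_mem hw) n⁻¹ (N.inv_mem hn)
        rwa [inv_inv] at this }
  have hmem : ∀ k, k ∈ S ↔ ∃ w ∈ B, ∃ n ∈ N, k = w * n := fun _ => Iff.rfl
  have hNS : N ≤ S := fun n hn => ⟨1, B.one_mem, n, hn, by group⟩
  have hBS : B ≤ S := fun w hw => ⟨w, hw, 1, N.one_mem, by group⟩
  refine ⟨S, fun w hw n hn => ⟨w, hw, n, hn, rfl⟩, ?_⟩
  have hn : (N.subgroupOf S).Normal := by
    refine ⟨fun n hn g => ?_⟩
    rw [Subgroup.mem_subgroupOf] at hn ⊢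
    obtain ⟨w, hw, m, hm, e⟩ := (hmem _).1 g.2
    push_cast
    rw [e]
    have h1 := hBN w⁻¹ (B.inv_mem hw) (m * n * m⁻¹) (N.mul_mem (N.mul_mem hm hn) (N.inv_mem hm))
    have e2 : w⁻¹⁻¹ * (m * n * m⁻¹) * w⁻¹ = w * m * n * (w * m)⁻¹ := by group
    rwa [e2] at h1
  refine LF_ext (N.subgroupOf S) ?_ ?_
  · refine LF_of_inj (B := N) (((S.subtype).comp (N.subgroupOf S).subtype).codRestrict N ?_) ?_ hN
    · intro x
      exact Subgroup.mem_subgroupOf.1 x.2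
    · intro x y hxy
      have := congrArg (fun z : N => (z : G)) hxy
      exact Subtype.ext (Subtype.ext this)
  · refine LF_of_surj ((QuotientGroup.mk' (N.subgroupOf S)).comp (Subgroup.inclusion hBS)) ?_ hB
    intro q
    obtain ⟨k, rfl⟩ := QuotientGroup.mk'_surjective _ q
    obtain ⟨w, hw, n, hn, e⟩ := (hmem _).1 k.2
    refine ⟨⟨w, hw⟩, ?_⟩
    show QuotientGroup.mk' (N.subgroupOf S) (⟨w, hBS hw⟩ : S) = QuotientGroup.mk' _ k
    rw [QuotientGroup.mk'_apply, QuotientGroup.mk'_apply, QuotientGroup.eq,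
      Subgroup.mem_subgroupOf]
    push_cast
    rw [e]
    have e2 : w⁻¹ * (w * n) = n := by group
    rw [e2]
    exact hn

/-- The stabilizer is locally finite. -/
theorem lf_ns (hS : ShuS.{u}) (h : Fr K a b c) (hF : (Fx K a b : Set G).Finite) :
    LF (K ⊓ NS (Lb K b) : Subgroup G) := by
  have hDa : ∀ u ∈ Cz K b, a * u * a ∈ Cz K b := fun u hu => h.cz_inv h.aa h.cab hu
  have hB : LF (Cz K b) := by
    refine (hS G K a b c h (Cz K b) a cz_le h.aa hDa ?_).2.2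
    refine hF.subset ?_
    rintro w ⟨hw, hwa⟩
    exact mem_Fx.2 ⟨(mem_Cz.1 hw).1, hwa, (mem_Cz.1 hw).2⟩
  set N : Subgroup G := K ⊓ HD (Cz K b) with hNdef
  have hNL : LF N := by
    refine sh h.rot inf_le_left ?_ fun u hu => hu.2
    rintro u ⟨hu, hu'⟩
    exact ⟨h.cjmem h.bb hu, fi_inv h.bb (fun d hd => h.cz_inv h.bb rfl hd) hu'⟩
  have hBN : ∀ w ∈ Cz K b, ∀ n ∈ N, w⁻¹ * n * w ∈ N := by
    rintro w hw n ⟨hn, hn'⟩
    refine ⟨h.cjk hn, fi_conj ?_ hn'⟩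
    intro d hd
    exact (Cz K b).mul_mem ((Cz K b).mul_mem hw hd) ((Cz K b).inv_mem hw)
  obtain ⟨S, hS1, hS2⟩ := LF_prod hBN hB hNL
  refine LF_mono ?_ hS2
  rintro k ⟨hk, hkN⟩
  obtain ⟨w, s, hw, hs, e, h1, h2⟩ := h.dec (X := K) le_rfl h.bb (fun u hu => h.cjmem h.bb hu) hk
  have hwB : w ∈ Cz K b := mem_Cz.2 ⟨hw, h1⟩
  have hsN : s ∈ NS (Lb K b) := by
    have e1 : s = w⁻¹ * k := by rw [e]; group
    rw [e1]
    exact (NS _).mul_mem ((NS _).inv_mem (cz_ns h hwB)) hkN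
  rw [e]
  refine hS1 w hwB s ⟨hs, ?_⟩
  have h3 := (ns_lb h hsN).2.1
  obtain ⟨R, hRB, hR⟩ := cover_of_relIndex h3
  show (Subgroup.centralizer {s}).relIndex (Cz K b) ≠ 0
  refine relIndex_of_cover (R : Set G) R.finite_toSet ?_
  intro g hg
  obtain ⟨r, hr, h4⟩ := hR g hg
  refine ⟨r, hr, ?_⟩
  have c1 : Commute (g * r⁻¹) b :=
    (mem_Cz.1 ((Cz K b).mul_mem hg ((Cz K b).inv_mem (hRB r hr)))).2
  have c2 : Commute (g * r⁻¹) (s⁻¹ * b * s) := (mem_Cz.1 h4).2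
  have e1 : b * (s⁻¹ * b * s) = s * s := by
    calc b * (s⁻¹ * b * s) = (b * s⁻¹ * b) * s := by group
      _ = (b * s * b)⁻¹ * s := by rw [cj_inv h.bb]
      _ = s * s := by rw [h2]; group
  have c3 := c1.mul_right c2
  rw [e1] at c3
  obtain ⟨n, hn⟩ := h.odd s hs
  have e2 : (s * s) ^ (n + 1) = s := by
    rw [← pow_two, ← pow_mul]
    have : 2 * (n + 1) = (2 * n + 1) + 1 := by ring
    rw [this, pow_succ, hn, one_mul]
  have c4 := c3.pow_right (n + 1)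
  rw [e2] at c4
  exact Subgroup.mem_centralizer_singleton_iff.2 c4

end Pool.Agent.FourGp.FF.Abo
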