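import Pool.Agent.Lib.MP_fb3619_al.FF.Fin

/-!
# MP_fb3619_al: theorem AB1 (finding 4327), the projection to `F`

If the elements of `C_K(b)` inverted by `a` commute, the `F`-part of an element of `K` is the same
at `a` and at `c`.
-/

set_option autoImplicit false

universe u

namespace Pool.Agent.FourGp.FF.Abo

open Pool.Agent.FourGp.H47 (Odd' inv_of_sq conj_inv_pow mul_inv_self odd_conj comm_of_inv
  mul_inv_self' comm_pow comm_inv conj_comm comm_conj)

variable {G : Type u} [Group G] {K : Subgroup G} {a b c : G}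

/-- `f` is the `F`-part of `k` at the involution `v`: `k = f r u`, `r` inverted by `v`, `u` in
`C_K(v)` inverted by `b`. -/
def Ph (K : Subgroup G) (v b k f : G) : Prop :=
  f ∈ Fx K v b ∧ ∃ r u : G, r ∈ K ∧ v * r * v = r⁻¹ ∧ u ∈ Cz K v ∧ b * u * b = u⁻¹ ∧
    k = f * r * u

/-- conjugation by an involution -/
theorem cj_mul {z x y : G} (hz : z * z = 1) : z * (x * y) * z = (z * x * z) * (z * y * z) := by
  calc z * (x * y) * z = z * x * 1 * y * z := by group
    _ = z * x * (z * z) * y * z := by rw [hz]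
    _ = _ := by group

theorem cj_inv {z x : G} (hz : z * z = 1) : z * x⁻¹ * z = (z * x * z)⁻¹ := by
  rw [mul_inv_rev, mul_inv_rev, inv_of_sq hz]; group

theorem cj_fix {z x : G} (hz : z * z = 1) (h : x * z = z * x) : z * x * z = x := by
  rw [← h, mul_assoc, hz, mul_one]

theorem fix_cj {z x : G} (hz : z * z = 1) (h : z * x * z = x) : x * z = z * x := by
  calc x * z = (z * x * z) * z := by rw [h]
    _ = z * x * (z * z) := by group
    _ = z * x := by rw [hz, mul_one]

/-- `x⁻¹ y x`, `x` fixed by `z` -/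
theorem cj_conj {z x y : G} (_hz : z * z = 1) (h : x * z = z * x) :
    z * (x⁻¹ * y * x) * z = x⁻¹ * (z * y * z) * x := by
  have c1 : Commute x z := h
  calc z * (x⁻¹ * y * x) * z = (z * x⁻¹) * y * (x * z) := by group
    _ = (x⁻¹ * z) * y * (z * x) := by rw [c1.inv_left.eq, h]
    _ = _ := by group

theorem ab_c (h : Fr K a b c) (hab : Ab K b a) : Ab K b c := by
  intro u v hu hv hui hvi
  have key : ∀ w, w ∈ Cz K b → c * w * c = w⁻¹ → a * w * a = w⁻¹ := fun w hw hwi =>
    h.rot.rot.swap'.inv_c (mem_Cz.1 hw).2 hwi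
  exact hab u v hu hv (key u hu hui) (key v hv hvi)

theorem ph_uniq (h : Fr K a b c) {k f f' : G} (h1 : Ph K a b k f) (h2 : Ph K a b k f') :
    f = f' := by
  obtain ⟨hf, r, u, hr, hri, hu, hui, e⟩ := h1
  obtain ⟨hf', r', u', hr', hri', hu', hui', e'⟩ := h2
  obtain ⟨hfK, hfa, hfb⟩ := mem_Fx.1 hf
  obtain ⟨hfK', hfa', hfb'⟩ := mem_Fx.1 hf'
  obtain ⟨huK, hua⟩ := mem_Cz.1 hu
  obtain ⟨huK', hua'⟩ := mem_Cz.1 hu'
  have cm : ∀ x y : G, x * a = a * x → y * a = a * y → x * y * a = a * (x * y) := by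
    intro x y hx hy
    have c1 : Commute x a := hx
    have c2 : Commute y a := hy
    exact c1.mul_left c2
  have h3 := h.dec_uniq (z := a) (w := f * u) (s := u⁻¹ * r * u) (w' := f' * u')
    (s' := u'⁻¹ * r' * u') h.aa
    (K.mul_mem (K.mul_mem (K.inv_mem huK) hr) huK)
    (K.mul_mem (K.mul_mem (K.inv_mem huK') hr') huK') (cm f u hfa hua) (cm f' u' hfa' hua')
    (by rw [cj_conj h.aa hua, hri]; group)
    (by rw [cj_conj h.aa hua', hri']; group)
    (by
      calc f * u * (u⁻¹ * r * u) = f * r * u := by group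
        _ = f' * r' * u' := by rw [← e, ← e']
        _ = _ := by group)
  exact (h.dec_uniq (z := b) h.bb huK huK' hfb hfb' hui hui' h3.1).1

/-- Lemma PHI. -/
theorem phi (h : Fr K a b c) (hab : Ab K b a) {k f : G} (hk : Ph K a b k f) : Ph K c b k f := by
  obtain ⟨hf, r, u, hr, hri, hu, hui, e⟩ := hk
  obtain ⟨hfK, hfa, hfb⟩ := mem_Fx.1 hf
  obtain ⟨huK, hua⟩ := mem_Cz.1 hu
  have hfc := h.comm3 hfa hfb
  have huc : c * u * c = u⁻¹ := h.swap.inv_c hua hui
  have hz : Ty K c (c * u) := h.rot.rot.ty_inv h.rot.rot.ty_a huK huc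
  have hrc : c * r * c ∈ K := h.cjmem h.cc hr
  have hrci : a * (c * r * c) * a = (c * r * c)⁻¹ := by
    calc a * (c * r * c) * a = (a * c) * r * (c * a) := by group
      _ = b * r * b := by rw [h.ac, h.ca]
      _ = (c * a) * r * (a * c) := by rw [h.ac, h.ca]
      _ = c * (a * r * a) * c := by group
      _ = c * r⁻¹ * c := by rw [hri]
      _ = _ := cj_inv h.cc
  have hx : Ty K a (a * (c * r * c)) := h.ty_inv h.ty_a hrc hrci
  set x := a * (c * r * c) with hxdef
  set z := c * u with hzdef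
  have hp : x * z = b * (f⁻¹ * k) := by
    calc x * z = (a * c) * r * (c * c) * u := by rw [hxdef, hzdef]; group
      _ = b * r * u := by rw [h.ac, h.cc, mul_one]
      _ = b * (f⁻¹ * (f * r * u)) := by group
      _ = _ := by rw [e]
  obtain ⟨m, hy, hyx, hyz⟩ := h.swap'.perp hx hz
  set y := (x * z) ^ m with hydef
  set p := x * z with hpdef
  have hyp : Commute y p := by
    rw [hydef]; exact (Commute.refl p).pow_left m
  have hxp : x * p * x = p⁻¹ := mul_inv_self hx.1 hz.1
  have hkK : k ∈ K := by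
    rw [e]; exact K.mul_mem (K.mul_mem hfK hr) huK
  have hwK : y * p ∈ K := by
    have h1 : y * b ∈ K := hy.2
    have e1 : y * p = (y * b) * (f⁻¹ * k) := by rw [hp, mul_assoc]
    rw [e1]
    exact K.mul_mem h1 (K.mul_mem (K.inv_mem hfK) hkK)
  have hyinv : y⁻¹ = y := inv_of_sq hy.1
  have hypi : (y * p)⁻¹ = y * p⁻¹ := by
    rw [mul_inv_rev, hyinv]
    exact (hyp.inv_right).eq.symm
  have hxw : x * (y * p) * x = (y * p)⁻¹ := by
    calc x * (y * p) * x = (x * y) * p * x := by group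
      _ = (y * x) * p * x := by rw [hyx]
      _ = y * (x * p * x) := by group
      _ = _ := by rw [hxp, hypi]
  have hwy : y * p * y = y * (y * p) := by
    rw [mul_assoc, hyp.eq]
  obtain ⟨n, ht, hty, htc⟩ := h.rot.perp hy h.rot.rot.ty_a
  set t := (y * c) ^ n with htdef
  have hinv : t * (y * p) * t = (y * p)⁻¹ :=
    Uu.inv2 h hab hy hx hyx.symm hwK hwy hxw (Or.inl ht) hty
  have htp : t * p * t = p⁻¹ := by
    calc t * p * t = t * (y * y) * p * t := by rw [hy.1, mul_one]
      _ = (t * y) * (y * p) * t := by group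
      _ = (y * t) * (y * p) * t := by rw [hty]
      _ = y * (t * (y * p) * t) := by group
      _ = y * (y * p⁻¹) := by rw [hinv, hypi]
      _ = (y * y) * p⁻¹ := by group
      _ = p⁻¹ := by rw [hy.1, one_mul]
  -- `z_c = p t`
  have hzc : (p * t) * (p * t) = 1 := by
    calc (p * t) * (p * t) = p * (t * p * t) := by group
      _ = 1 := by rw [htp]; group
  have hsK : c * (p * t) ∈ K := by
    have e1 : c * (p * t) = (a * (f⁻¹ * k) * a) * (a * (t * a) * a) := by
      calc c * (p * t) = (c * b) * (f⁻¹ * k) * t := by rw [hp]; group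
        _ = a * (f⁻¹ * k) * 1 * 1 * t * 1 := by rw [h.cb]; group
        _ = a * (f⁻¹ * k) * (a * a) * (1 * t) * (a * a) := by rw [h.aa]; group
        _ = a * (f⁻¹ * k) * (a * a) * t * (a * a) := by group
        _ = _ := by group
    rw [e1]
    exact K.mul_mem (h.cjmem h.aa (K.mul_mem (K.inv_mem hfK) hkK)) (h.cjmem h.aa ht.2)
  have hsi : c * (c * (p * t)) * c = (c * (p * t))⁻¹ := by
    rw [mul_inv_rev, inv_of_sq h.cc, inv_of_sq hzc, ← mul_assoc, h.cc, one_mul]
  refine ⟨mem_Fx.2 ⟨hfK, hfc, hfb⟩, a * (c * (p * t)) * a, a * t, h.cjmem h.aa hsK, ?_, ?_, ?_, ?_⟩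
  · calc c * (a * (c * (p * t)) * a) * c = (c * a) * (c * (p * t)) * (a * c) := by group
      _ = b * (c * (p * t)) * b := by rw [h.ca, h.ac]
      _ = (a * c) * (c * (p * t)) * (c * a) := by rw [h.ca, h.ac]
      _ = a * (c * (c * (p * t)) * c) * a := by group
      _ = a * (c * (p * t))⁻¹ * a := by rw [hsi]
      _ = _ := cj_inv h.aa
  · refine mem_Cz.2 ⟨h.ty_mul h.ty_a ht, ?_⟩
    have c1 : Commute a c := h.cac
    have c2 : Commute t c := htc
    exact c1.mul_left c2
  · -- `b` inverts `a t`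
    have c1 : Commute a c := h.cac
    have c2 : Commute t c := htc
    have c3 : Commute (t * a) c := c2.mul_left c1
    calc b * (a * t) * b = (c * a) * (a * t) * (a * c) := by rw [h.ca, h.ac]
      _ = c * (a * a) * t * a * c := by group
      _ = c * (t * a * c) := by rw [h.aa]; group
      _ = c * (c * (t * a)) := by rw [c3.eq]
      _ = (c * c) * (t * a) := by group
      _ = t * a := by rw [h.cc, one_mul]
      _ = (a * t)⁻¹ := by rw [mul_inv_rev, inv_of_sq h.aa, inv_of_sq ht.1]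
  · have e1 : b * p = f⁻¹ * k := by
      rw [hp, ← mul_assoc, h.bb, one_mul]
    symm
    calc f * (a * (c * (p * t)) * a) * (a * t) = f * a * c * p * t * (a * a) * t := by group
      _ = f * (a * c) * p * (t * t) := by rw [h.aa]; group
      _ = f * (b * p) := by rw [h.ac, ht.1]; group
      _ = k := by rw [e1]; group

/-- conjugation in `C_K(b)` of an inverted element -/
theorem bm_conj (h : Fr K a b c) (hab : Ab K b a) {β g : G} (hβ : β ∈ Cz K b)
    (hβi : a * β * a = β⁻¹) (hg : g ∈ Cz K b) :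
    g⁻¹ * β * g ∈ Cz K b ∧ a * (g⁻¹ * β * g) * a = (g⁻¹ * β * g)⁻¹ := by
  refine ⟨(Cz K b).mul_mem ((Cz K b).mul_mem ((Cz K b).inv_mem hg) hβ) hg, ?_⟩
  obtain ⟨w, s, hw, hs, e, h1, h2⟩ := h.dec (X := Cz K b) cz_le h.aa
    (fun u hu => h.cz_inv h.aa h.cab hu) hg
  have h3 : w⁻¹ * β * w ∈ Cz K b :=
    (Cz K b).mul_mem ((Cz K b).mul_mem ((Cz K b).inv_mem hw) hβ) hw
  have h4 : a * (w⁻¹ * β * w) * a = (w⁻¹ * β * w)⁻¹ := by
    rw [cj_conj h.aa h1, hβi]; group
  have h5 := hab _ _ h3 hs h4 h2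
  have e1 : g⁻¹ * β * g = w⁻¹ * β * w := by
    calc g⁻¹ * β * g = s⁻¹ * ((w⁻¹ * β * w) * s) := by rw [e]; group
      _ = s⁻¹ * (s * (w⁻¹ * β * w)) := by rw [h5]
      _ = _ := by group
  rw [e1, h4]

/-- The `C_K(v)`-part of an element inverted by `z` is inverted by `z`. -/
theorem comp_inv (h : Fr K a b c) {z k w s : G} (hz : z * z = 1) (hza : z * a = a * z)
    (hk : z * k * z = k⁻¹) (hsK : s ∈ K) (e : k = w * s) (hw : w * a = a * w)
    (hs : a * s * a = s⁻¹) : z * w * z = w⁻¹ := by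
  have c1 : Commute z a := hza
  have c2 : Commute w a := hw
  have hwz : (z * w * z) * a = a * (z * w * z) := (c1.mul_left c2).mul_left c1
  have hsz : a * (z * s * z) * a = (z * s * z)⁻¹ := by
    calc a * (z * s * z) * a = (a * z) * s * (z * a) := by group
      _ = (z * a) * s * (a * z) := by rw [hza]
      _ = z * (a * s * a) * z := by group
      _ = _ := by rw [hs]; exact cj_inv hz
  -- `k = (w^z)⁻¹ ⬝ ...`
  have e1 : k = (z * w * z)⁻¹ * ((z * w * z) * (z * s * z)⁻¹ * (z * w * z)⁻¹) := by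
    have : k = ((z * w * z) * (z * s * z))⁻¹ := by
      rw [← cj_mul hz, ← e, hk, inv_inv]
    rw [this]; group
  have hs2 : a * ((z * w * z) * (z * s * z)⁻¹ * (z * w * z)⁻¹) * a =
      ((z * w * z) * (z * s * z)⁻¹ * (z * w * z)⁻¹)⁻¹ := by
    have := cj_conj (z := a) (x := (z * w * z)⁻¹) (y := (z * s * z)⁻¹) h.aa
      (comm_inv hwz)
    rw [inv_inv] at this
    rw [this, cj_inv h.aa, hsz]
    generalize z * w * z = W
    generalize z * s * z = T
    group
  have h3 := h.dec_uniq (z := a) (w := w) (s := s) (w' := (z * w * z)⁻¹)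
    (s' := (z * w * z) * (z * s * z)⁻¹ * (z * w * z)⁻¹) h.aa hsK ?_ hw (comm_inv hwz) hs hs2
    (by rw [← e, ← e1])
  · calc z * w * z = ((z * w * z)⁻¹)⁻¹ := by group
      _ = w⁻¹ := by rw [← h3.1]
  · exact h.nor.conj_mem _ (K.inv_mem (h.cjmem hz hsK)) _

end Pool.Agent.FourGp.FF.Abo
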