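import Pool.Agent.Lib.MP_fb3619_al.H4.Abe
import Pool.Agent.Lib.MP_fb3619_al.FF.Bridge

/-!
# MP_fb3619_al: theorem AB1 (finding 4327), the covering lemma for sets and the end of the proof
-/

set_option autoImplicit false

universe u v

namespace Pool.Agent.FourGp.FF.Abo

open Pool.Agent.FourGp.H47 (Odd' inv_of_sq conj_inv_pow mul_inv_self odd_conj comm_of_inv
  mul_inv_self' comm_pow comm_inv conj_comm comm_conj)
open Pool.Agent.FourGp.H99 (LF LF_ext LF_of_surj)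

variable {G : Type u} [Group G] {K : Subgroup G} {a b c : G}

/-- COV for a set `L` (which may be infinite) with finitely many conjugates under `C_K(a)`. -/
theorem covs (h : Fr K a b c) (hF : (Fx K a b : Set G).Finite) {L : Set G}
    (hLc : ∀ g ∈ Cz K c, ∀ s ∈ L, g⁻¹ * s * g ∈ L) (hLa : ∀ s ∈ L, a * s * a ∈ L)
    (hLb : ∀ s ∈ L, b * s * b ∈ L) (hfi : (NS L).relIndex (Cz K a) ≠ 0) :
    ∀ k ∈ K, (NS L).relIndex (Cz K (k * a * k⁻¹)) ≠ 0 := by
  classical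
  intro k hk
  -- the involution `x`
  have hx : Ty K a (k * a * k⁻¹) := by
    have := h.ty_conj h.ty_a (K.inv_mem hk)
    rwa [_root_.inv_inv] at this
  set x := k * a * k⁻¹ with hxdef
  obtain ⟨m, hy0, hy0x, hy0c⟩ := h.swap'.perp hx h.rot.rot.ty_a
  set y0 := (x * c) ^ m with hy0def
  have hF0 := h.fx_finite hF hx hy0 hy0x.symm
  -- the finite set containing all labels
  have hU : {A | ∃ α ∈ Cz K a, A = {t | ∃ s ∈ L, t = α⁻¹ * s * α}}.Finite := by
    obtain ⟨R, -, hR⟩ := cover_of_relIndex hfi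
    refine (R.finite_toSet.image fun r => {t | ∃ s ∈ L, t = r⁻¹ * s * r}).subset ?_
    rintro A ⟨α, hα, rfl⟩
    obtain ⟨r, hr, h1⟩ := hR α hα
    refine ⟨r, hr, ?_⟩
    ext t
    constructor
    · rintro ⟨s, hs, rfl⟩
      refine ⟨(α * r⁻¹) * s * (α * r⁻¹)⁻¹, ?_, by group⟩
      rw [h1]
      have e : (α * r⁻¹)⁻¹ * ((α * r⁻¹) * s * (α * r⁻¹)⁻¹) * (α * r⁻¹) = s := by group
      rw [e]; exact hs
    · rintro ⟨s, hs, rfl⟩
      exact ⟨(α * r⁻¹)⁻¹ * s * (α * r⁻¹), (h1 s).1 hs, by group⟩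
  have hconj : ∀ g : G, g ∈ Cz K x → Ty K b (g⁻¹ * y0 * g) ∧
      (g⁻¹ * y0 * g) * x = x * (g⁻¹ * y0 * g) := by
    intro g hg
    rw [mem_Cz] at hg
    refine ⟨h.rot.ty_conj hy0 hg.1, ?_⟩
    have c1 : Commute g x := hg.2
    have c2 : Commute y0 x := hy0x
    exact (c1.inv_left.mul_left c2).mul_left c1
  have hfin := cover_abs (S := Cz K x) (fun g => lab K a c L ((g : G)⁻¹ * y0 * g))
    (hU.subset (by
      rintro _ ⟨g, rfl⟩
      have hy := (hconj g g.2).1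
      obtain ⟨α, hα, hαy, -, -⟩ := lab_ex h hy
      exact ⟨α, hα, lab_eq h hLc hy hα hαy⟩))
    {f | (f : G) * y0 = y0 * f}
    (by
      refine Set.Finite.of_finite_image (f := Subtype.val) (hF0.subset ?_)
        Subtype.val_injective.injOn
      rintro _ ⟨f, hf, rfl⟩
      exact mem_Fx.2 ⟨(mem_Cz.1 f.2).1, (mem_Cz.1 f.2).2, hf⟩)
    (fun A => (NS A).subgroupOf (Cz K x))
    (by
      -- (vi)
      intro g g' e
      have hg := hconj g g.2
      have hg' := hconj g' g'.2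
      set y := (g : G)⁻¹ * y0 * g with hy
      set y' := (g' : G)⁻¹ * y0 * g' with hy'
      obtain ⟨j, hj⟩ := h.rot.ty_cj hg.1 hg'.1
      set q := (y * y') ^ j with hq
      have hqx : q ∈ Cz K x :=
        mem_Cz.2 ⟨K.pow_mem (h.rot.ty_mul hg.1 hg'.1) j, comm_pow hg.2 hg'.2 j⟩
      have hqN : q ∈ NS (lab K a c L y) := by
        refine (NS _).pow_mem ((NS _).mul_mem (lab_y h hLc hLb hg.1) ?_) _
        have e' : lab K a c L y = lab K a c L y' := e
        rw [e']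
        exact lab_y h hLc hLb hg'.1
      refine ⟨g' * (g * ⟨q, hqx⟩)⁻¹, ?_, ⟨q, hqx⟩, ?_, ?_⟩
      · show ((g' * (g * ⟨q, hqx⟩)⁻¹ : Cz K x) : G) * y0 = y0 * _
        push_cast
        apply comm_conj
        calc ((g' : G) * ((g : G) * q)⁻¹)⁻¹ * y0 * (g' * ((g : G) * q)⁻¹)
            = g * q * ((g' : G)⁻¹ * y0 * g') * q⁻¹ * (g : G)⁻¹ := by group
          _ = g * q * (q⁻¹ * ((g : G)⁻¹ * y0 * g) * q) * q⁻¹ * (g : G)⁻¹ := by
            rw [← hy', ← hj, hy]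
          _ = y0 := by group
      · rw [Subgroup.mem_subgroupOf]
        exact hqN
      · group)
    (by
      -- (vii)
      intro g f hf q hq
      rw [Subgroup.mem_subgroupOf] at hq
      have hf' : (f : G) * y0 = y0 * f := hf
      have e : ((f * g * q : Cz K x) : G)⁻¹ * y0 * ((f * g * q : Cz K x) : G) =
          (q : G)⁻¹ * ((g : G)⁻¹ * y0 * g) * q := by
        push_cast
        calc ((f : G) * g * q)⁻¹ * y0 * (f * g * q)
            = (q : G)⁻¹ * (g : G)⁻¹ * ((f : G)⁻¹ * (y0 * f)) * g * q := by group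
          _ = (q : G)⁻¹ * (g : G)⁻¹ * ((f : G)⁻¹ * (f * y0)) * g * q := by rw [hf']
          _ = _ := by group
      show lab K a c L (((f * g * q : Cz K x) : G)⁻¹ * y0 * ((f * g * q : Cz K x) : G)) = _
      rw [e]
      exact lab_conj h hLc hLa hLb (hconj g g.2).1 (mem_Cz.1 q.2).1 hq)
    1
  -- the label of `y0` is `L`
  have hlab : lab K a c L y0 = L := by
    have h1 : (1 : G) ∈ Cz K a := (Cz K a).one_mem
    rw [lab_eq h hLc hy0 h1 (by
      have e : (1 : G)⁻¹ * c * 1 = c := by group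
      rw [e]; exact hy0c.symm)]
    ext t
    constructor
    · rintro ⟨s, hs, rfl⟩
      have e : (1 : G)⁻¹ * s * 1 = s := by group
      rw [e]; exact hs
    · intro ht
      exact ⟨t, ht, by group⟩
  have e1 : (((1 : Cz K x) : G))⁻¹ * y0 * ((1 : Cz K x) : G) = y0 := by
    push_cast; group
  simp only [e1, hlab] at hfin
  exact hfin.index_ne_zero

/-- A set invariant under `C_K(b)` and the four-group with finitely many conjugates under
`C_K(a)` and under `C_K(c)` has finitely many conjugates under `K`. -/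
theorem cov2 (h : Fr K a b c) (hF : (Fx K a b : Set G).Finite) {L : Set G}
    (hLB : ∀ g ∈ Cz K b, ∀ s ∈ L, g⁻¹ * s * g ∈ L) (hLa : ∀ s ∈ L, a * s * a ∈ L)
    (hLc : ∀ s ∈ L, c * s * c ∈ L) (hfa : (NS L).relIndex (Cz K a) ≠ 0)
    (hfc : (NS L).relIndex (Cz K c) ≠ 0) : (K ⊓ NS L : Subgroup G).relIndex K ≠ 0 := by
  classical
  have eF : Fx K a c = Fx K a b := h.swap.fx_rot.trans Fr.fx_swap.symm
  have key := covs h.swap' (by rw [eF]; exact hF) hLB hLa hLc hfa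
  have hB : Cz K b ≤ NS L := by
    intro g hg t
    refine ⟨fun ht => hLB g hg t ht, fun ht => ?_⟩
    have h1 := hLB g⁻¹ ((Cz K b).inv_mem hg) _ ht
    have e : g⁻¹⁻¹ * (g⁻¹ * t * g) * g⁻¹ = t := by group
    rwa [e] at h1
  obtain ⟨R, hRC, hR⟩ := cover_of_relIndex hfc
  have h1 : ∀ ρ : G, ∃ T : Finset G, ρ ∈ K → ∀ g ∈ Cz K (ρ * a * ρ⁻¹), ∃ t ∈ T,
      t ∈ K ∧ g * t⁻¹ ∈ NS L := by
    intro ρ
    by_cases hρ : ρ ∈ K
    · obtain ⟨T, hTK, hT⟩ := cover_of_relIndex (key ρ hρ)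
      refine ⟨T, fun _ g hg => ?_⟩
      obtain ⟨t, ht, h2⟩ := hT g hg
      exact ⟨t, ht, cz_le (hTK t ht), h2⟩
    · exact ⟨∅, fun h => absurd h hρ⟩
  choose T hT using h1
  refine relIndex_of_cover {x | ∃ ρ ∈ R, ∃ t ∈ T ρ, x = t * ρ} ?_ ?_
  · refine (R.finite_toSet.biUnion fun ρ _ => (T ρ).finite_toSet.image fun t => t * ρ).subset ?_
    rintro _ ⟨ρ, hρ, t, ht, rfl⟩
    rw [Set.mem_iUnion]
    refine ⟨ρ, ?_⟩
    rw [Set.mem_iUnion]
    exact ⟨hρ, t, ht, rfl⟩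
  · intro k hk
    obtain ⟨β, γ, α, hβK, hγK, hαK, e, hβb, hγc, -, hαa, -⟩ := h.rot.fac (X := K) le_rfl
      (fun u hu => h.cjmem h.bb hu) (fun u hu => h.cjmem h.cc hu) hk
    obtain ⟨ρ, hρ, h2⟩ := hR γ (mem_Cz.2 ⟨hγK, hγc⟩)
    have hρK : ρ ∈ K := (mem_Cz.1 (hRC ρ hρ)).1
    have h3 : ρ * α * ρ⁻¹ ∈ Cz K (ρ * a * ρ⁻¹) := by
      have := cz_conj h ρ⁻¹ (mem_Cz.2 ⟨hαK, hαa⟩)
      rwa [_root_.inv_inv] at this
    obtain ⟨t, ht, htK, h4⟩ := hT ρ hρK _ h3
    have h5 := (NS L).mul_mem ((NS L).mul_mem (hB (mem_Cz.2 ⟨hβK, hβb⟩)) h2) h4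
    have e2 : β * (γ * ρ⁻¹) * (ρ * α * ρ⁻¹ * t⁻¹) = k * (t * ρ)⁻¹ := by rw [e]; group
    rw [e2] at h5
    exact ⟨t * ρ, ⟨ρ, hρ, t, ht, rfl⟩, K.mul_mem hk (K.inv_mem (K.mul_mem htK hρK)), h5⟩

/-- AB1 when the locally finite radical is trivial. -/
theorem ab1_nolf (hS : ShuS.{u}) (hU : UuS.{u}) (hM : MqS.{u}) (h : Fr K a b c)
    (hN : NoLf K a b) (hF : (Fx K a b : Set G).Finite) (hab : Ab K b a) : LF K := by
  have hT := (ll hU hM h hN hab).1
  have hfc := orb_c hS h hN hF hab hT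
  have h' : Fr K c b a := h.rot.rot.swap'
  have eF : Fx K c b = Fx K a b := Fr.fx_swap.trans h.fx_rot
  have hF' : (Fx K c b : Set G).Finite := by rw [eF]; exact hF
  have hN' : NoLf K c b := (hN.rot h).swap
  have hab' : Ab K b c := ab_c h hab
  have hT' := (ll hU hM h' hN' hab').1
  have hfa := orb_c hS h' hN' hF' hab' hT'
  have hrel := cov2 h hF (L := Lb K b) (fun g hg s hs => (cz_ns h hg s).1 hs)
    (lb_inv h h.aa h.cab) (lb_inv h h.cc h.cbc.symm) hfa hfc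
  exact Fct.LF_rel inf_le_left hrel (lf_ns hS h hF)

/-- The hypothesis of AB1. -/
def A1 (G : Type u) [Group G] (K : Subgroup G) (a b _c : G) : Prop :=
  (Fx K a b : Set G).Finite ∧ Ab K b a

/-- AB1. -/
theorem ab1 (hS : ShuS.{u}) (hU : UuS.{u}) (hM : MqS.{u}) (G : Type u) [Group G]
    (K : Subgroup G) (a b c : G) (h : Fr K a b c) (hP : A1 G K a b c) : LF K := by
  refine rad A1 ?_ ?_ G K a b c h hP
  · intro G _ K N a b c Q _ K' a' b' c' π h q hP
    obtain ⟨hF, hB⟩ := hP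
    refine ⟨q.fx_finite h hF, ?_⟩
    intro u v hu hv hui hvi
    obtain ⟨k, hk, hki, rfl⟩ := q.lift_ab h hu hui
    obtain ⟨l, hl, hli, rfl⟩ := q.lift_ab h hv hvi
    have := hB k l hk hl hki hli
    rw [← map_mul, ← map_mul]
    congr 1
    exact Subtype.ext this
  · intro G _ K a b c h hN hP
    exact ab1_nolf hS hU hM h hN hP.1 hP.2

theorem ab1Fin (G : Type u) [Group G] (K : Subgroup G) (a b c : G) (h : Fr K a b c)
    (hF : (Fx K a b : Set G).Finite) (hab : Ab K b a) : LF K :=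
  ab1 shu uu mq G K a b c h ⟨hF, hab⟩

theorem resAb (hG : Monoid.IsTorsion G) (R : Subgroup G)
    (hR4 : Nat.card R = 4) (hR2 : ∀ r ∈ R, r ^ 2 = 1) (N : Subgroup G) [N.Normal]
    (hN : ∀ g ∈ N, g ^ 2 = 1 → g = 1)
    (hfin : Finite ↥(N ⊓ Subgroup.centralizer (R : Set G))) (r t : G) (hr : r ∈ R) (ht : t ∈ R)
    (hr1 : r ≠ 1) (ht1 : t ≠ 1) (hrt : r ≠ t)
    (hcomm : ∀ x ∈ N ⊓ Subgroup.centralizer {r}, ∀ y ∈ N ⊓ Subgroup.centralizer {r},
        t⁻¹ * x * t = x⁻¹ → t⁻¹ * y * t = y⁻¹ → x * y = y * x) :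
    (∀ H ≤ N, H.FG → Finite H) ∧
      ((∀ H : Subgroup (G ⧸ N), H.FG → Finite H) → ∀ H : Subgroup G, H.FG → Finite H) := by
  obtain ⟨a, ha, b, hb, ha1, hb1, har, hbr, hfr, hF⟩ := bridge hG R hR4 hR2 N hN hr hr1
  refine concl N ?_
  have hRR : ∀ r ∈ R, r * r = 1 := fun r hr => by rw [← pow_two]; exact hR2 r hr
  obtain ⟨-, -, hall⟩ := Pool.Agent.FourGp.H47.fourR R hR4 hRR hr ht hr1 ht1 hrt
  rw [hF] at hfin
  have hF' : (Fx N a b : Set G).Finite := Set.toFinite _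
  have hab : Ab N r t := by
    intro x y hx hy hxi hyi
    have e : t⁻¹ = t := inv_of_sq (hRR t ht)
    refine hcomm x hx y hy ?_ ?_
    · rw [e]; exact hxi
    · rw [e]; exact hyi
  -- `t = a` or `t = b`
  have htab : t = a ∨ t = b := by
    rcases hall a ha with h1 | h1 | h1 | h1
    · exact absurd h1 ha1
    · right
      have h2 : b = a * r := by rw [← hfr.ab, ← mul_assoc, hfr.aa, one_mul]
      have h3 : a * r = r * a := hfr.cac
      rw [h2, h3, h1, ← mul_assoc, hRR r hr, one_mul]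
    · exact absurd h1 har
    · exact Or.inl h1.symm
  rcases htab with h1 | h1
  · rw [h1] at hab
    refine ab1Fin G N a r b hfr.swap' ?_ hab
    rw [show Fx N a r = Fx N a b from hfr.swap.fx_rot.trans Fr.fx_swap.symm]
    exact hF'
  · rw [h1] at hab
    refine ab1Fin G N b r a hfr.rot ?_ hab
    rw [hfr.fx_rot]
    exact hF'

end Pool.Agent.FourGp.FF.Abo
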