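import Pool.Agent.Lib.MP_fb3619_al.Iface

/-!
# BTRI: `C_K(x)` fixes the classes of the type of `x`
-/

universe u

namespace Pool.Agent.FourGp.H4

open Pool.Agent.FourGp Equiv

variable {G : Type u} [Group G] {H K : Subgroup G} {a b c : G}

/-- The first point of a configuration. -/
def ptA (h : Cfg H K a b c) : Pt H := ⟨a, h.ha, h.haa, fun e => h.ea (e ▸ K.one_mem)⟩

/-- The second point. -/
def ptB (h : Cfg H K a b c) : Pt H := ⟨b, h.hb, h.hbb, fun e => h.eb (e ▸ K.one_mem)⟩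

/-- The third point. -/
def ptC (h : Cfg H K a b c) : Pt H := ⟨c, h.hc, h.hcc, fun e => h.ec (e ▸ K.one_mem)⟩

theorem perp_ab (h : Cfg H K a b c) : (inc H K).perp (ptA h) (ptB h) := by
  refine ⟨h.ab.trans h.ba.symm, fun e => ?_⟩
  have e' : a = b := e
  have h1 : a * b = c := h.ab
  rw [e', h.hbb] at h1
  exact h.ec (h1 ▸ K.one_mem)

theorem perp_bc (h : Cfg H K a b c) : (inc H K).perp (ptB h) (ptC h) := perp_ab h.rot

theorem perp_ac (h : Cfg H K a b c) : (inc H K).perp (ptA h) (ptC h) :=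
  perp_ab h.rot.rot.swap

/-- Step (1). -/
theorem step1 (hinvt : InvtS.{u}) (hgeom : GeomS.{u}) (hcjc : CjcS.{u}) (h : Cfg H K a b c)
    (k : H) (hk : k.1 ∈ K) (hkb : b * k = k * b) (y : Pt H) (hy : (inc H K).st y (ptB h))
    (hyc : (inc H K).perp y (ptC h)) : (inc H K).sim y (cj H k y) := by
  obtain ⟨hg, -, -⟩ := hgeom G H K a b c h
  have hcol := hcjc G H K a b c h k
  have hinv : c * k * c = (k : G)⁻¹ := hinvt G H K b c a h.rot k hk hkb
  -- the involution `c k`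
  have h1 : c * (k : G) * (c * k) = 1 := by
    rw [← mul_assoc, hinv, inv_mul_cancel]
  have h2 : c * (k : G) ≠ 1 := by
    intro e
    apply h.ec
    rw [eq_inv_of_mul_eq_one_left e]
    exact K.inv_mem hk
  let c' : Pt H := ⟨c * k, H.mul_mem h.hc k.2, h1, h2⟩
  have hcc' : (inc H K).st (ptC h) c' := by
    change c * (c * k) ∈ K
    rw [← mul_assoc, h.hcc, one_mul]
    exact hk
  have hyc' : ¬ (inc H K).st y c' := fun e =>
    hg.perp_st _ _ hyc (hg.st_trans _ _ _ e (hg.st_symm _ _ hcc'))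
  obtain ⟨l, hl⟩ : ∃ l, l = (inc H K).cr y c' := ⟨_, rfl⟩
  have hly : (inc H K).perp y l := hl ▸ hg.cr_l _ _ hyc'
  have hlc : (inc H K).perp c' l := hl ▸ hg.cr_r _ _ hyc'
  have hyk : (k : G)⁻¹ * y.1 * k = (c * k) * y.1 * (c * k) := by
    have h3 : y.1 * c = c * y.1 := hyc.1
    have h4 : c * (k : G) = (k : G)⁻¹ * c := by
      rw [← hinv, mul_assoc (c * (k : G)), h.hcc, mul_one]
    calc (k : G)⁻¹ * y.1 * k = (k : G)⁻¹ * (c * c) * y.1 * k := by rw [h.hcc, mul_one]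
      _ = ((k : G)⁻¹ * c) * (c * y.1) * k := by group
      _ = (c * k) * (y.1 * c) * k := by rw [h3, h4]
      _ = (c * k) * y.1 * (c * k) := by group
  have hl2 : (inc H K).perp l (cj H k y) := by
    refine ⟨?_, fun e => ?_⟩
    · change l.1 * ((k : G)⁻¹ * y.1 * k) = (k : G)⁻¹ * y.1 * k * l.1
      rw [hyk]
      have h5 : y.1 * l.1 = l.1 * y.1 := hly.1
      have h6 : (c * (k : G)) * l.1 = l.1 * (c * k) := hlc.1
      calc l.1 * ((c * k) * y.1 * (c * k)) = (l.1 * (c * k)) * y.1 * (c * k) := by group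
        _ = (c * k) * (l.1 * y.1) * (c * k) := by rw [← h6]; group
        _ = (c * k) * y.1 * (l.1 * (c * k)) := by rw [← h5]; group
        _ = (c * k) * y.1 * (c * k) * l.1 := by rw [← h6]; group
    · apply hg.perp_st _ _ hly
      rw [show l = cj H k y from Subtype.ext e]
      exact hcol.tp y
  have hbk : cj H k (ptB h) = ptB h := by
    apply Subtype.ext
    change (k : G)⁻¹ * b * k = b
    rw [mul_assoc, hkb, ← mul_assoc, inv_mul_cancel, one_mul]
  have hst : (inc H K).st (ptC h) (cj H k (ptC h)) := hcol.tp _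
  refine Relation.EqvGen.rel _ _ ⟨l, ptC h, cj H k (ptC h), ptB h, hg.perp_symm _ _ hly, hl2, hy,
    hg.perp_symm _ _ hyc, hg.perp_symm _ _ (perp_bc h), ?_, ?_, hst, ?_⟩
  · have := (hcol.inc (ptC h) (ptB h)).1 (hg.perp_symm _ _ (perp_bc h))
    rwa [show (cj H k, cj H k).2 (ptB h) = ptB h from hbk] at this
  · exact (hcol.inc (ptC h) y).1 (hg.perp_symm _ _ hyc)
  · intro e
    exact hg.perp_st _ _ hlc (hg.st_trans _ _ _ (hg.st_symm _ _ hcc') e)

/-- The case `x = b`. -/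
theorem step3 (hinvt : InvtS.{u}) (hgeom : GeomS.{u}) (hlemf : LemfS.{u}) (hcjc : CjcS.{u})
    (hproj : ProjS.{u}) (h : Cfg H K a b c)
    (k : H) (hk : k.1 ∈ K) (hkb : b * k = k * b) (y : Pt H) (hy : (inc H K).st y (ptB h)) :
    (inc H K).sim y (cj H k y) := by
  obtain ⟨hg, -, -⟩ := hgeom G H K a b c h
  have hcol := hcjc G H K a b c h k
  have hF := hlemf G H K a b c h
  obtain ⟨p1, p2⟩ := hproj (Pt H) (inc H K) hg hF
  obtain ⟨A, hA⟩ : ∃ A, A = ptA h := ⟨_, rfl⟩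
  obtain ⟨C, hC⟩ : ∃ C, C = ptC h := ⟨_, rfl⟩
  obtain ⟨B, hB⟩ : ∃ B, B = ptB h := ⟨_, rfl⟩
  have hAB : (inc H K).perp A B := by rw [hA, hB]; exact perp_ab h
  have hBC : (inc H K).perp B C := by rw [hC, hB]; exact perp_bc h
  have hAC : (inc H K).perp A C := by rw [hA, hC]; exact perp_ac h
  have hBk : cj H k B = B := by
    rw [hB]
    apply Subtype.ext
    change (k : G)⁻¹ * b * k = b
    rw [mul_assoc, hkb, ← mul_assoc, inv_mul_cancel, one_mul]
  have s1 : ∀ y : Pt H, (inc H K).st y B → (inc H K).perp y C → (inc H K).sim y (cj H k y) := by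
    intro y h1 h2
    rw [hB] at h1
    rw [hC] at h2
    exact step1 hinvt hgeom hcjc h k hk hkb y h1 h2
  have s2 : ∀ y : Pt H, (inc H K).st y B → (inc H K).perp y A → (inc H K).sim y (cj H k y) := by
    intro y h1 h2
    rw [hB] at h1
    rw [hA] at h2
    exact step1 hinvt hgeom hcjc h.rot.swap k hk hkb y h1 h2
  rw [← hB] at hy
  obtain ⟨t, ht, hs⟩ := hg.label
  have i1 := hg.perp_st _ _ hAB
  have i2 := hg.perp_st _ _ hBC
  have i3 := hg.perp_st _ _ hAC
  have tA := ht A; have tB := ht B; have tC := ht C; have ty := ht y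
  have yA : ¬ (inc H K).st A y := by rw [hs] at *; omega
  have yC : ¬ (inc H K).st C y := by rw [hs] at *; omega
  have yA' : ¬ (inc H K).st y A := by rw [hs] at *; omega
  have yC' : ¬ (inc H K).st y C := by rw [hs] at *; omega
  have AA := hg.st_refl A
  have CC := hg.st_refl C
  -- the coordinates
  obtain ⟨yc, hyc⟩ : ∃ yc, yc = (inc H K).pr C C y := ⟨_, rfl⟩
  obtain ⟨ya, hya⟩ : ∃ ya, ya = (inc H K).pr A A y := ⟨_, rfl⟩
  have c1 : (inc H K).perp yc C := hyc ▸ hg.pr_perp yC CC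
  have c2 : (inc H K).perp ya A := hya ▸ hg.pr_perp yA AA
  have c3 : (inc H K).st yc y := hyc ▸ hg.pr_st yC CC
  have c4 : (inc H K).st ya y := hya ▸ hg.pr_st yA AA
  have c5 : (inc H K).cr yc C = (inc H K).cr y C := hyc ▸ hg.cr_pr yC CC
  have c6 : (inc H K).cr ya A = (inc H K).cr y A := hya ▸ hg.cr_pr yA AA
  obtain ⟨m, hm⟩ : ∃ m, m = (inc H K).cr y C := ⟨_, rfl⟩
  obtain ⟨n, hn⟩ : ∃ n, n = (inc H K).cr y A := ⟨_, rfl⟩
  have ym : (inc H K).perp y m := hm ▸ hg.cr_l _ _ yC'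
  have Cm : (inc H K).perp C m := hm ▸ hg.cr_r _ _ yC'
  have yn : (inc H K).perp y n := hn ▸ hg.cr_l _ _ yA'
  have An : (inc H K).perp A n := hn ▸ hg.cr_r _ _ yA'
  have i4 := hg.perp_st _ _ ym
  have i5 := hg.perp_st _ _ Cm
  have i6 := hg.perp_st _ _ yn
  have i7 := hg.perp_st _ _ An
  have tm := ht m; have tn := ht n; have tyc := ht yc; have tya := ht ya
  have mA : (inc H K).st m A := by rw [hs] at *; omega
  have nC : (inc H K).st n C := by rw [hs] at *; omega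
  have mn : ¬ (inc H K).st m n := by rw [hs] at *; omega
  have eqy : y = (inc H K).cr m n :=
    hg.uniq _ _ _ mn (hg.perp_symm _ _ ym) (hg.perp_symm _ _ yn)
  rw [← hm] at c5
  rw [← hn] at c6
  -- the images
  obtain ⟨y1, hy1⟩ : ∃ y1, y1 = cj H k yc := ⟨_, rfl⟩
  obtain ⟨y2, hy2⟩ : ∃ y2, y2 = cj H k ya := ⟨_, rfl⟩
  have d1 : (inc H K).st yc y1 := hy1 ▸ hcol.tp yc
  have d2 : (inc H K).st ya y2 := hy2 ▸ hcol.tp ya
  have ycB : (inc H K).st yc B := hg.st_trans _ _ _ c3 hy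
  have yaB : (inc H K).st ya B := hg.st_trans _ _ _ c4 hy
  have d3 : (inc H K).sim yc y1 := hy1 ▸ s1 yc ycB c1
  have d4 : (inc H K).sim ya y2 := hy2 ▸ s2 ya yaB c2
  obtain ⟨A', hA'⟩ : ∃ A', A' = cj H k A := ⟨_, rfl⟩
  obtain ⟨C', hC'⟩ : ∃ C', C' = cj H k C := ⟨_, rfl⟩
  have d5 : (inc H K).st A A' := hA' ▸ hcol.tp A
  have d6 : (inc H K).st C C' := hC' ▸ hcol.tp C
  have BC' : (inc H K).perp B C' := by
    have := (hcol.inc B C).1 hBC
    rw [hC']
    rwa [show (cj H k, cj H k).1 B = B from hBk] at this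
  have BA' : (inc H K).perp B A' := by
    have := (hcol.inc B A).1 (hg.perp_symm _ _ hAB)
    rw [hA']
    rwa [show (cj H k, cj H k).1 B = B from hBk] at this
  have ty1 := ht y1; have ty2 := ht y2; have tA' := ht A'; have tC' := ht C'
  have e1 : ¬ (inc H K).st C yc := by rw [hs] at *; omega
  have e2 : ¬ (inc H K).st A ya := by rw [hs] at *; omega
  have e3 : ¬ (inc H K).st y1 C := by rw [hs] at *; omega
  have e4 : ¬ (inc H K).st y2 A := by rw [hs] at *; omega
  have e5 : ¬ (inc H K).st y1 C' := by rw [hs] at *; omega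
  have e6 : ¬ (inc H K).st y2 A' := by rw [hs] at *; omega
  have f1 := hg.cr_st_l e3
  have f2 := hg.cr_st_r e3
  have f3 := hg.cr_st_l e4
  have f4 := hg.cr_st_r e4
  have f5 := hg.cr_st_l e5
  have f6 := hg.cr_st_r e5
  have t1 := ht ((inc H K).cr y1 C)
  have t2 := ht ((inc H K).cr y2 A)
  have t3 := ht ((inc H K).cr y1 C')
  have g1 : (inc H K).st ((inc H K).cr y1 C) A := by rw [hs] at *; omega
  have g2 : (inc H K).st ((inc H K).cr y2 A) C := by rw [hs] at *; omega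
  have g3 : (inc H K).st ((inc H K).cr y1 C') A := by rw [hs] at *; omega
  have g4 : ¬ (inc H K).st ((inc H K).cr y1 C) n := by rw [hs] at *; omega
  have g5 : ¬ (inc H K).st ((inc H K).cr y1 C) ((inc H K).cr y2 A) := by rw [hs] at *; omega
  have g6 : ¬ (inc H K).st ((inc H K).cr y1 C') ((inc H K).cr y2 A) := by rw [hs] at *; omega
  -- the chain
  have q1 : (inc H K).sim ((inc H K).pr C n yc) ((inc H K).pr C n y1) := p1 C n yc y1 d3 e1 nC
  have q2 : (inc H K).sim ((inc H K).pr A ((inc H K).cr y1 C) ya)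
      ((inc H K).pr A ((inc H K).cr y1 C) y2) := p1 A _ ya y2 d4 e2 g1
  have q3 : (inc H K).sim ((inc H K).pr C ((inc H K).cr y2 A) y1)
      ((inc H K).pr C' ((inc H K).cr y2 A) y1) := by
    refine p2 A C C' B _ y1 hAB hBC BC' d6 ?_ (hg.cr_r _ _ e4) g2
      (hg.st_trans _ _ _ (hg.st_symm _ _ d1) ycB)
    exact i3
  have q4 : (inc H K).sim ((inc H K).pr A ((inc H K).cr y1 C') y2)
      ((inc H K).pr A' ((inc H K).cr y1 C') y2) := by
    refine p2 C' A A' B _ y2 (hg.perp_symm _ _ BC') (hg.perp_symm _ _ hAB) BA' d5 ?_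
      (hg.cr_r _ _ e5) g3 (hg.st_trans _ _ _ (hg.st_symm _ _ d2) yaB)
    rw [hs] at *; omega
  have r1 : (inc H K).pr C n yc = y := by
    unfold Inc.pr
    rw [c5]
    exact eqy.symm
  have r2 : (inc H K).pr C n y1 = (inc H K).pr A ((inc H K).cr y1 C) ya := by
    unfold Inc.pr
    rw [c6]
    exact hg.cr_comm g4
  have r3 : (inc H K).pr A ((inc H K).cr y1 C) y2 = (inc H K).pr C ((inc H K).cr y2 A) y1 := by
    unfold Inc.pr
    exact (hg.cr_comm g5).symm
  have r4 : (inc H K).pr C' ((inc H K).cr y2 A) y1 =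
      (inc H K).pr A ((inc H K).cr y1 C') y2 := by
    unfold Inc.pr
    exact hg.cr_comm g6
  have r5 : (inc H K).pr A' ((inc H K).cr y1 C') y2 = cj H k y := by
    unfold Inc.pr
    have h1 : (inc H K).cr y1 C' = cj H k m := by
      rw [← c5, hy1, hC']
      exact (hg.col_cr hcol (fun e => e1 (hg.st_symm _ _ e))).symm
    have h2 : (inc H K).cr y2 A' = cj H k n := by
      rw [← c6, hy2, hA']
      exact (hg.col_cr hcol (fun e => e2 (hg.st_symm _ _ e))).symm
    rw [h1, h2]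
    have h3 : y = (inc H K).cr n m := eqy.trans (hg.cr_comm mn)
    conv_rhs => rw [h3]
    exact (hg.col_cr hcol (fun e => mn (hg.st_symm _ _ e))).symm
  rw [r1, r2] at q1
  rw [r3] at q2
  rw [r4] at q3
  rw [r5] at q4
  exact Relation.EqvGen.trans _ _ _ q1 (Relation.EqvGen.trans _ _ _ q2
    (Relation.EqvGen.trans _ _ _ q3 q4))

theorem btri (hinvt : InvtS.{u}) (hreba : RebaS.{u}) (hgeom : GeomS.{u}) (hlemf : LemfS.{u})
    (hcjc : CjcS.{u}) (hproj : ProjS.{u}) : BtriS.{u} := by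
  intro G _ H K a b c h x k hk hxk y hy
  obtain ⟨hg, -, -⟩ := hgeom G H K a b c h
  -- a flag containing `x`
  obtain ⟨z, hz⟩ : ∃ z : Pt H, ¬ (inc H K).st x z := by
    by_contra hcon
    push Not at hcon
    exact hg.perp_st _ _ (perp_ab h)
      (hg.st_trans _ _ _ (hg.st_symm _ _ (hcon (ptA h))) (hcon (ptB h)))
  have hp : (inc H K).perp x ((inc H K).cr x z) := hg.cr_l _ _ hz
  have h' := (hreba G H K a b c h x _ hp).swap
  exact step3 hinvt hgeom hlemf hcjc hproj h' k hk hxk y hy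

end Pool.Agent.FourGp.H4
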