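import Pool.Agent.Lib.MP_fb3619_al.Iface

/-!
# TRING: assembly of the ring
-/

universe u

namespace Pool.Agent.FourGp.H4

open Pool.Agent.FourGp Tri

variable {X Y Z : Type u} [AddCommGroup X] [AddCommGroup Y] [AddCommGroup Z]

/-- Rotation of the centroid. -/
theorem isCen_rot {T : Tri X Y Z} {e : AddMonoid.End T.MX × AddMonoid.End T.MY ×
    AddMonoid.End T.MZ} (h : T.IsCen e) : T.rot.IsCen (e.2.1, e.2.2, e.1) :=
  ⟨h.yz, h.yz', h.zx, h.zx', h.xy, h.xy'⟩

theorem isCen_rot' {T : Tri X Y Z} {e : AddMonoid.End T.MY × AddMonoid.End T.MZ ×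
    AddMonoid.End T.MX} (h : T.rot.IsCen e) : T.IsCen (e.2.2, e.1, e.2.1) :=
  ⟨h.zx, h.zx', h.xy, h.xy', h.yz, h.yz'⟩

theorem isCen_rot'' {T : Tri X Y Z} {e : AddMonoid.End T.MZ × AddMonoid.End T.MX ×
    AddMonoid.End T.MY} (h : T.rot.rot.IsCen e) : T.IsCen (e.2.1, e.2.2, e.1) :=
  ⟨h.yz, h.yz', h.zx, h.zx', h.xy, h.xy'⟩

/-- The centroid as a commutative ring. -/
@[reducible] def cenComm (T : Tri X Y Z) (h : ∀ e f, T.IsCen e → T.IsCen f → e * f = f * e) :
    CommRing T.Cen :=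
  { (inferInstance : Ring T.Cen) with
    mul_comm := fun e f => Subtype.ext (h e.1 f.1 e.2 f.2) }

theorem tring (hform : TformS.{u}) (hcen : TcenS.{u}) (huni : TuniS.{u}) (hax : TaxS.{u})
    (hgr : TgrS.{u}) : TringS.{u} := by
  intro X Y Z _ _ _ T hT
  have hT1 := hT.rot
  have hT2 := hT.rot.rot
  let : CommRing T.Cen := cenComm T (hcen X Y Z T hT).1
  let mx : Module T.Cen T.MX := Module.compHom T.MX
    ((RingHom.fst (AddMonoid.End T.MX) (AddMonoid.End T.MY × AddMonoid.End T.MZ)).comp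
      T.Cen.subtype)
  let my : Module T.Cen T.MY := Module.compHom T.MY
    (((RingHom.fst (AddMonoid.End T.MY) (AddMonoid.End T.MZ)).comp
      (RingHom.snd (AddMonoid.End T.MX) (AddMonoid.End T.MY × AddMonoid.End T.MZ))).comp
      T.Cen.subtype)
  let mz : Module T.Cen T.MZ := Module.compHom T.MZ
    (((RingHom.snd (AddMonoid.End T.MY) (AddMonoid.End T.MZ)).comp
      (RingHom.snd (AddMonoid.End T.MX) (AddMonoid.End T.MY × AddMonoid.End T.MZ))).comp
      T.Cen.subtype)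
  have sx : ∀ (e : T.Cen) (x : T.MX), e • x = e.1.1 x := fun _ _ => rfl
  have sy : ∀ (e : T.Cen) (y : T.MY), e • y = e.1.2.1 y := fun _ _ => rfl
  have sz : ∀ (e : T.Cen) (z : T.MZ), e • z = e.1.2.2 z := fun _ _ => rfl
  -- forms
  choose ex hex using hform X Y Z T hT
  choose ey hey using hform Y Z X T.rot hT1
  choose ez hez using hform Z X Y T.rot.rot hT2
  let FX : X → X → T.Cen := fun x x' => ⟨ex x x', (hex x x').cen⟩
  let FY : Y → Y → T.Cen := fun y y' =>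
    ⟨((ey y y').2.2, (ey y y').1, (ey y y').2.1), isCen_rot' (hey y y').cen⟩
  let FZ : Z → Z → T.Cen := fun z z' =>
    ⟨((ez z z').2.1, (ez z z').2.2, (ez z z').1), isCen_rot'' (hez z z').cen⟩
  have uX : ∀ x x' (e : T.Cen), (∀ m : T.MY, (e.1.2.1 m).1 = T.zx (T.xy x' m.1) x) →
      e = FX x x' := by
    intro x x' e h
    apply Subtype.ext
    exact (hcen X Y Z T hT).2 e.1 (ex x x') e.2 (hex x x').cen fun y =>
      Subtype.ext ((h y).trans ((hex x x').my y).symm)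
  have uY : ∀ y y' (e : T.Cen), (∀ m : T.MZ, (e.1.2.2 m).1 = T.xy (T.yz y' m.1) y) →
      e = FY y y' := by
    intro y y' e h
    have h1 := (hcen Y Z X T.rot hT1).2 (e.1.2.1, e.1.2.2, e.1.1) (ey y y') (isCen_rot e.2)
      (hey y y').cen fun z => Subtype.ext ((h z).trans ((hey y y').my z).symm)
    apply Subtype.ext
    change e.1 = ((ey y y').2.2, (ey y y').1, (ey y y').2.1)
    rw [← h1]
    rfl
  have uZ : ∀ z z' (e : T.Cen), (∀ m : T.MX, (e.1.1 m).1 = T.yz (T.zx z' m.1) z) →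
      e = FZ z z' := by
    intro z z' e h
    have h1 := (hcen Z X Y T.rot.rot hT2).2 (e.1.2.2, e.1.1, e.1.2.1) (ez z z')
      (isCen_rot (isCen_rot e.2)) (hez z z').cen fun x =>
        Subtype.ext ((h x).trans ((hez z z').my x).symm)
    apply Subtype.ext
    change e.1 = ((ez z z').2.1, (ez z z').2.2, (ez z z').1)
    rw [← h1]
    rfl
  have myX : ∀ x x' (m : T.MY), ((FX x x').1.2.1 m).1 = T.zx (T.xy x' m.1) x :=
    fun x x' m => (hex x x').my m
  have myY : ∀ y y' (m : T.MZ), ((FY y y').1.2.2 m).1 = T.xy (T.yz y' m.1) y :=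
    fun y y' m => (hey y y').my m
  have myZ : ∀ z z' (m : T.MX), ((FZ z z').1.1 m).1 = T.yz (T.zx z' m.1) z :=
    fun z z' m => (hez z z').my m
  have syX : ∀ x x', FX x x' = FX x' x := fun x x' =>
    uX x' x _ ((hax X Y Z T hT).1 x x' _ (hex x x')).my
  have syY : ∀ y y', FY y y' = FY y' y := fun y y' =>
    uY y' y _ ((hax Y Z X T.rot hT1).1 y y' _ (hey y y')).my
  have syZ : ∀ z z', FZ z z' = FZ z' z := fun z z' =>
    uZ z' z _ ((hax Z X Y T.rot.rot hT2).1 z z' _ (hez z z')).my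
  have adX : ∀ x x2 x', FX (x + x2) x' = FX x x' + FX x2 x' := fun x x2 x' =>
    (uX _ _ _ fun m => by
      change ((FX x x').1.2.1 m).1 + ((FX x2 x').1.2.1 m).1 = _
      rw [myX, myX, map_add]).symm
  have adY : ∀ y y2 y', FY (y + y2) y' = FY y y' + FY y2 y' := fun y y2 y' =>
    (uY _ _ _ fun m => by
      change ((FY y y').1.2.2 m).1 + ((FY y2 y').1.2.2 m).1 = _
      rw [myY, myY, map_add]).symm
  have adZ : ∀ z z2 z', FZ (z + z2) z' = FZ z z' + FZ z2 z' := fun z z2 z' =>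
    (uZ _ _ _ fun m => by
      change ((FZ z z').1.1 m).1 + ((FZ z2 z').1.1 m).1 = _
      rw [myZ, myZ, map_add]).symm
  have smX : ∀ (c : T.Cen) (x x' : T.MX), FX (c.1.1 x).1 x'.1 = c * FX x.1 x'.1 :=
    fun c x x' => (uX _ _ _ fun m => by
      change (c.1.2.1 ((FX x.1 x'.1).1.2.1 m)).1 = _
      have h : (FX x.1 x'.1).1.2.1 m = T.pZX (T.pXY x' m) x := Subtype.ext (myX _ _ m)
      rw [h, c.2.zx']
      rfl).symm
  have smY : ∀ (c : T.Cen) (y y' : T.MY), FY (c.1.2.1 y).1 y'.1 = c * FY y.1 y'.1 :=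
    fun c y y' => (uY _ _ _ fun m => by
      change (c.1.2.2 ((FY y.1 y'.1).1.2.2 m)).1 = _
      have h : (FY y.1 y'.1).1.2.2 m = T.pXY (T.pYZ y' m) y := Subtype.ext (myY _ _ m)
      rw [h, c.2.xy']
      rfl).symm
  have smZ : ∀ (c : T.Cen) (z z' : T.MZ), FZ (c.1.2.2 z).1 z'.1 = c * FZ z.1 z'.1 :=
    fun c z z' => (uZ _ _ _ fun m => by
      change (c.1.1 ((FZ z.1 z'.1).1.1 m)).1 = _
      have h : (FZ z.1 z'.1).1.1 m = T.pYZ (T.pZX z' m) z := Subtype.ext (myZ _ _ m)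
      rw [h, c.2.yz']
      rfl).symm
  let S : GS T.Cen T.MX T.MY T.MZ :=
    { xy := LinearMap.mk₂ T.Cen T.pXY T.pXY_add (fun c x y => (c.2.xy x y).symm) T.pXY_add'
        (fun c x y => (c.2.xy' x y).symm)
      yz := LinearMap.mk₂ T.Cen T.pYZ T.pYZ_add (fun c x y => (c.2.yz x y).symm) T.pYZ_add'
        (fun c x y => (c.2.yz' x y).symm)
      zx := LinearMap.mk₂ T.Cen T.pZX T.pZX_add (fun c x y => (c.2.zx x y).symm) T.pZX_add'
        (fun c x y => (c.2.zx' x y).symm)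
      fx := LinearMap.mk₂ T.Cen (fun x x' => FX x.1 x'.1) (fun x x2 x' => adX _ _ _)
        (fun c x x' => smX c x x')
        (fun x x' x2 => by
          change FX x.1 (x'.1 + x2.1) = FX x.1 x'.1 + FX x.1 x2.1
          rw [syX, adX, syX, syX x2.1])
        (fun c x x' => by
          change FX x.1 (c.1.1 x').1 = c * FX x.1 x'.1
          rw [syX, smX, syX])
      fy := LinearMap.mk₂ T.Cen (fun x x' => FY x.1 x'.1) (fun x x2 x' => adY _ _ _)
        (fun c x x' => smY c x x')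
        (fun x x' x2 => by
          change FY x.1 (x'.1 + x2.1) = FY x.1 x'.1 + FY x.1 x2.1
          rw [syY, adY, syY, syY x2.1])
        (fun c x x' => by
          change FY x.1 (c.1.2.1 x').1 = c * FY x.1 x'.1
          rw [syY, smY, syY])
      fz := LinearMap.mk₂ T.Cen (fun x x' => FZ x.1 x'.1) (fun x x2 x' => adZ _ _ _)
        (fun c x x' => smZ c x x')
        (fun x x' x2 => by
          change FZ x.1 (x'.1 + x2.1) = FZ x.1 x'.1 + FZ x.1 x2.1
          rw [syZ, adZ, syZ, syZ x2.1])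
        (fun c x x' => by
          change FZ x.1 (c.1.2.2 x').1 = c * FZ x.1 x'.1
          rw [syZ, smZ, syZ])
      fx_symm := fun x x' => syX _ _
      fy_symm := fun x x' => syY _ _
      fz_symm := fun x x' => syZ _ _
      xxy := fun x x' y => Subtype.ext ((hex x.1 x'.1).my y)
      xxz := fun x x' z => Subtype.ext ((hex x.1 x'.1).mz z)
      yyz := fun y y' z => Subtype.ext ((hey y.1 y'.1).my z)
      yyx := fun y y' x => Subtype.ext ((hey y.1 y'.1).mz x)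
      zzx := fun z z' x => Subtype.ext ((hez z.1 z'.1).my x)
      zzy := fun z z' y => Subtype.ext ((hez z.1 z'.1).mz y)
      xxx := fun x x' x'' => (hax X Y Z T hT).2.1 x x' x'' _ _ (hex x.1 x'.1) (hex x'.1 x''.1)
      yyy := fun x x' x'' =>
        (hax Y Z X T.rot hT1).2.1 x x' x'' _ _ (hey x.1 x'.1) (hey x'.1 x''.1)
      zzz := fun x x' x'' =>
        (hax Z X Y T.rot.rot hT2).2.1 x x' x'' _ _ (hez x.1 x'.1) (hez x'.1 x''.1)
      xyz := fun x y z =>
        (uZ (T.xy x.1 y.1) z.1 (FX x.1 (T.yz y.1 z.1))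
          ((hax X Y Z T hT).2.2.1 x y z _ (hex x.1 (T.yz y.1 z.1))).my).symm
      yzx := fun x y z => by
        change FX x.1 (T.yz y.1 z.1) = FY y.1 (T.zx z.1 x.1)
        rw [syX]
        exact (uX (T.yz y.1 z.1) x.1 (FY y.1 (T.zx z.1 x.1))
          ((hax Y Z X T.rot hT1).2.2.1 y z x _ (hey y.1 (T.zx z.1 x.1))).my).symm }
  obtain ⟨R, hR, i0, jx, jy, jz, hinj, hsur, hxy, hyz, hzx, hxx, hyy, hzz, h0x, h0y, h0z⟩ :=
    hgr T.Cen T.MX T.MY T.MZ S
  have key : ∀ (u e : T.Cen), u * (1 + e) = 1 → i0 u * (1 + i0 e) = 1 := by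
    intro u e h
    rw [← map_one i0, ← map_add, ← map_mul, h]
  refine ⟨R, hR, ⟨{
    R0 := i0.range
    jx := jx
    jy := jy
    jz := jz
    jxi := ?_
    jyi := ?_
    jzi := ?_
    xy := fun x y => hxy x y
    yz := fun y z => hyz y z
    zx := fun z x => hzx z x
    xx := fun x x' => ⟨_, (hxx x x').symm⟩
    yy := fun x x' => ⟨_, (hyy x x').symm⟩
    zz := fun x x' => ⟨_, (hzz x x').symm⟩
    rx := ?_
    ry := ?_
    rz := ?_
    ux := ?_
    uy := ?_
    uz := ?_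
    nt := ?_ }⟩⟩
  · rw [injective_iff_map_eq_zero]
    intro x hx
    exact (hinj 0 x 0 0 (by simp [hx])).2.1
  · rw [injective_iff_map_eq_zero]
    intro x hx
    exact (hinj 0 0 x 0 (by simp [hx])).2.2.1
  · rw [injective_iff_map_eq_zero]
    intro x hx
    exact (hinj 0 0 0 x (by simp [hx])).2.2.2
  · rintro _ ⟨e, rfl⟩ x
    exact ⟨_, h0x e x⟩
  · rintro _ ⟨e, rfl⟩ x
    exact ⟨_, h0y e x⟩
  · rintro _ ⟨e, rfl⟩ x
    exact ⟨_, h0z e x⟩
  · intro t ht
    obtain ⟨u, hu, hu'⟩ := huni X Y Z T hT t.1 ht _ (hex t.1 t.1)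
    refine ⟨i0 ⟨u, hu⟩, ⟨_, rfl⟩, ?_⟩
    rw [hxx]
    exact key _ _ (Subtype.ext hu')
  · intro t ht
    obtain ⟨u, hu, hu'⟩ := huni Y Z X T.rot hT1 t.1 ht _ (hey t.1 t.1)
    refine ⟨i0 ⟨(u.2.2, u.1, u.2.1), isCen_rot' hu⟩, ⟨_, rfl⟩, ?_⟩
    rw [hyy]
    refine key _ _ (Subtype.ext ?_)
    have h1 := congrArg (fun q : AddMonoid.End T.MY × AddMonoid.End T.MZ × AddMonoid.End T.MX =>
      (q.2.2, q.1, q.2.1)) hu'
    exact h1
  · intro t ht
    obtain ⟨u, hu, hu'⟩ := huni Z X Y T.rot.rot hT2 t.1 ht _ (hez t.1 t.1)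
    refine ⟨i0 ⟨(u.2.1, u.2.2, u.1), isCen_rot'' hu⟩, ⟨_, rfl⟩, ?_⟩
    rw [hzz]
    refine key _ _ (Subtype.ext ?_)
    have h1 := congrArg (fun q : AddMonoid.End T.MZ × AddMonoid.End T.MX × AddMonoid.End T.MY =>
      (q.2.1, q.2.2, q.1)) hu'
    exact h1
  · intro r hr
    obtain ⟨e, x, y, z, rfl⟩ := hsur r
    have h1 : i0 (e + e) + jx (x + x) + jy (y + y) + jz (z + z) = 0 := by
      rw [map_add, map_add, map_add, map_add, ← hr]
      ring
    obtain ⟨h2, h3, h4, h5⟩ := hinj _ _ _ _ h1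
    have hx : x = 0 := Subtype.ext (hT.n.tx _ (congrArg Subtype.val h3))
    have hy : y = 0 := Subtype.ext (hT.n.ty _ (congrArg Subtype.val h4))
    have hz : z = 0 := Subtype.ext (hT.n.tz _ (congrArg Subtype.val h5))
    have he : e = 0 := by
      have h6 := congrArg Subtype.val h2
      apply Subtype.ext
      refine Prod.ext ?_ (Prod.ext ?_ ?_)
      · ext m
        exact hT.n.tx _ (congrArg (fun q : AddMonoid.End T.MX × AddMonoid.End T.MY ×
          AddMonoid.End T.MZ => (q.1 m).1) h6)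
      · ext m
        exact hT.n.ty _ (congrArg (fun q : AddMonoid.End T.MX × AddMonoid.End T.MY ×
          AddMonoid.End T.MZ => (q.2.1 m).1) h6)
      · ext m
        exact hT.n.tz _ (congrArg (fun q : AddMonoid.End T.MX × AddMonoid.End T.MY ×
          AddMonoid.End T.MZ => (q.2.2 m).1) h6)
    rw [hx, hy, hz, he]
    simp

end Pool.Agent.FourGp.H4
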