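import Pool.Agent.Lib.MP_fb3619_al.H4.Abb

/-!
# MP_fb3619_al: theorem AB1 (finding 4327), the claim
-/

set_option autoImplicit false

universe u

namespace Pool.Agent.FourGp.FF.Abo

open Pool.Agent.FourGp.H47 (Odd' inv_of_sq conj_inv_pow mul_inv_self odd_conj comm_of_inv
  mul_inv_self' comm_pow comm_inv conj_comm comm_conj)

variable {G : Type u} [Group G] {K : Subgroup G} {a b c : G}

/-- The `C_K(a)`-part of `β^γ` is inverted by `b`. -/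
theorem part_mi (h : Fr K a b c) {β γ w s : G} (hβ : β ∈ Cz K b) (hβi : a * β * a = β⁻¹)
    (hγ : Mi K c b γ) (hsK : s ∈ K) (e : γ⁻¹ * β * γ = w * s) (hw : w * a = a * w)
    (hs : a * s * a = s⁻¹) : Mi K a b w := by
  have hβc : c * β * c = β⁻¹ := h.inv_c (mem_Cz.1 hβ).2 hβi
  have hk : c * (γ⁻¹ * β * γ) * c = (γ⁻¹ * β * γ)⁻¹ := by
    rw [cj_conj h.cc (mem_Cz.1 hγ.1).2, hβc]; group
  have h1 : c * w * c = w⁻¹ := comp_inv h h.cc h.cac.symm hk hsK e hw hs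
  have hwK : w ∈ K := by
    have e1 : w = γ⁻¹ * β * γ * s⁻¹ := by rw [e]; group
    rw [e1]
    exact K.mul_mem (h.cjk (mem_Cz.1 hβ).1) (K.inv_mem hsK)
  exact ⟨mem_Cz.2 ⟨hwK, hw⟩, h.rot.rot.inv_c hw h1⟩

/-- The claim. -/
theorem claim (hS : ShuS.{u}) (h : Fr K a b c) (hN : NoLf K a b) (hF : (Fx K a b : Set G).Finite)
    (hab : Ab K b a) {X : Subgroup G} (hX : XS K a b X)
    (hQ : ∀ e ∈ X, e ∈ Fx K a b → ∀ u, Mi K a b u → e * u = u * e)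
    (hX2 : ∀ w u, Mi K a b w → Mi K a b u → u ∈ X →
      ∃ e ∈ X, e ∈ Fx K a b ∧ u⁻¹ * w * u = e * w)
    {β γ w s : G} (hβ : β ∈ Cz K b) (hβi : a * β * a = β⁻¹)
    (hγ : Mi K c b γ) (hsK : s ∈ K) (e : γ⁻¹ * β * γ = w * s) (hw : w * a = a * w)
    (hs : a * s * a = s⁻¹) : ∀ x ∈ X, w * x = x * w := by
  have hwM : Mi K a b w := part_mi h hβ hβi hγ hsK e hw hs
  have hwK := (mem_Cz.1 hwM.1).1
  have h' : Fr K c b a := h.rot.rot.swap'
  have eF : Fx K c b = Fx K a b := Fr.fx_swap.trans h.fx_rot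
  have hF' : (Fx K c b : Set G).Finite := by rw [eF]; exact hF
  have hN' : NoLf K c b := (hN.rot h).swap
  have main : ∀ u, Mi K a b u → u ∈ X → w * u = u * w := by
    intro u hu huX
    have hua := (mem_Cz.1 hu.1).2
    have huK := (mem_Cz.1 hu.1).1
    obtain ⟨g, α', γ', hgK, hα'K, hγ'K, e1, hgb, hαa, hαb, hγc, hγb⟩ := h.swap.fac (X := K)
      le_rfl (fun u hu => h.cjmem h.bb hu) (fun u hu => h.cjmem h.aa hu)
      (K.mul_mem (mem_Cz.1 hγ.1).1 huK)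
    have hg : g ∈ Cz K b := mem_Cz.2 ⟨hgK, hgb⟩
    obtain ⟨hβ1, hβ1i⟩ := bm_conj h hab hβ hβi hg
    have hk1 : a * (α'⁻¹ * (g⁻¹ * β * g) * α') * a = (α'⁻¹ * (g⁻¹ * β * g) * α')⁻¹ := by
      rw [cj_conj h.aa hαa, hβ1i]; group
    obtain ⟨w1, s1, hw1, hs1, e2, h1, h2⟩ := h.dec (X := K) le_rfl h.cc
      (fun u hu => h.cjmem h.cc hu) (h.cjk (g := α') (mem_Cz.1 hβ1).1)
    have hw1a : a * w1 * a = w1⁻¹ := comp_inv h.rot.rot h.aa h.cac hk1 hs1 e2 h1 h2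
    have hw1M : Mi K c b w1 := ⟨mem_Cz.2 ⟨hw1, h1⟩, h.swap'.inv_c h1 hw1a⟩
    obtain ⟨e0, he0X, he0F, he0⟩ := hX2 w u hwM hu huX
    -- the element `k`
    have hus : a * (u⁻¹ * s * u) * a = (u⁻¹ * s * u)⁻¹ := by
      rw [cj_conj h.aa hua, hs]; group
    have hPh : Ph K a b ((γ * u)⁻¹ * β * (γ * u)) e0 := by
      refine ⟨he0F, w * (u⁻¹ * s * u) * w⁻¹, w, ?_, ?_, hwM.1, hwM.2, ?_⟩
      · exact h.nor.conj_mem _ (h.cjk hsK) _
      · have h3 := cj_conj (z := a) (x := w⁻¹) (y := u⁻¹ * s * u) h.aa (comm_inv hw)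
        rw [_root_.inv_inv] at h3
        rw [h3, hus]; group
      · calc (γ * u)⁻¹ * β * (γ * u) = u⁻¹ * (γ⁻¹ * β * γ) * u := by group
          _ = (u⁻¹ * w * u) * (u⁻¹ * s * u) := by rw [e]; group
          _ = (e0 * w) * (u⁻¹ * s * u) := by rw [he0]
          _ = _ := by group
    obtain ⟨he0F', r', u', hr', hr'i, hu', hu'i, e3⟩ := phi h hab hPh
    have hu'c := (mem_Cz.1 hu').2
    have hu'K := (mem_Cz.1 hu').1
    have he0c : e0 * c = c * e0 := (mem_Fx.1 he0F').2.1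
    have e4 : (γ * u)⁻¹ * β * (γ * u) = γ'⁻¹ * (w1 * s1) * γ' := by
      rw [e1, ← e2]; group
    have cc1 : ∀ x y : G, x * c = c * x → y * c = c * y → x * y * c = c * (x * y) := by
      intro x y hx hy
      have c1 : Commute x c := hx
      have c2 : Commute y c := hy
      exact c1.mul_left c2
    have h5 := h.dec_uniq (z := c) (w := e0 * u') (s := u'⁻¹ * r' * u')
      (w' := γ'⁻¹ * w1 * γ') (s' := γ'⁻¹ * s1 * γ') h.cc (h.cjk hr') (h.cjk hs1)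
      (cc1 _ _ he0c hu'c) (cc1 _ _ (cc1 _ _ (comm_inv hγc) h1) hγc)
      (by rw [cj_conj h.cc hu'c, hr'i]; group)
      (by rw [cj_conj h.cc hγc, h2]; group)
      (by
        calc e0 * u' * (u'⁻¹ * r' * u') = e0 * r' * u' := by group
          _ = γ'⁻¹ * (w1 * s1) * γ' := by rw [← e3, e4]
          _ = _ := by group)
    -- `e0` has finitely many conjugates in `C_K(c)`
    have hfi1 : γ'⁻¹ * w1 * γ' ∈ HD (Cz K c) := by
      have h6 : ∀ v, Mi K c b v → v ∈ HD (Cz K c) := fun v hv => mi_fi hS h' hF' hv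
      exact (HD (Cz K c)).mul_mem ((HD (Cz K c)).mul_mem ((HD (Cz K c)).inv_mem
        (h6 γ' ⟨mem_Cz.2 ⟨hγ'K, hγc⟩, hγb⟩)) (h6 w1 hw1M)) (h6 γ' ⟨mem_Cz.2 ⟨hγ'K, hγc⟩, hγb⟩)
    have hfi : fi (Cz K c) e0 := by
      have h7 : e0 = (γ'⁻¹ * w1 * γ') * u'⁻¹ := by rw [← h5.1]; group
      rw [h7]
      exact (HD (Cz K c)).mul_mem hfi1 ((HD (Cz K c)).inv_mem (mi_fi hS h' hF' ⟨hu', hu'i⟩))
    have he1 : e0 = 1 := by
      refine rr h' hN' hF' ⟨he0F', ?_⟩ hfi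
      intro v hv hvi
      exact hQ e0 he0X he0F v ⟨hv, h.rot.rot.inv_c (mem_Cz.1 hv).2 hvi⟩
    rw [he1, one_mul] at he0
    calc w * u = u * (u⁻¹ * w * u) := by group
      _ = u * w := by rw [he0]
  intro x hx
  obtain ⟨q, t, hq, ht, e5, h1, h2⟩ := h.dec (X := X) (hX.le.trans cz_le) h.bb hX.inv hx
  have hqF : q ∈ Fx K a b := mem_Fx.2 ⟨(mem_Cz.1 (hX.le hq)).1, (mem_Cz.1 (hX.le hq)).2, h1⟩
  have c1 : Commute w q := (hQ q hq hqF w hwM).symm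
  have c2 : Commute w t := main t ⟨hX.le ht, h2⟩ ht
  rw [e5]
  exact c1.mul_right c2

end Pool.Agent.FourGp.FF.Abo
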