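import Pool.Agent.Lib.MP_fb3619_al.H4.Abd

/-!
# MP_fb3619_al: theorem AB1 (finding 4327), the orbit of `Lb` under `C_K(c)` is finite
-/

set_option autoImplicit false

universe u v

namespace Pool.Agent.FourGp.FF.Abo

open Pool.Agent.FourGp.H47 (Odd' inv_of_sq conj_inv_pow mul_inv_self odd_conj comm_of_inv
  mul_inv_self' comm_pow comm_inv conj_comm comm_conj)
open Pool.Agent.FourGp.H99 (LF LF_ext LF_of_surj)

variable {G : Type u} [Group G] {K : Subgroup G} {a b c : G}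

/-- `c β^γ` commutes with `b w`, `w` the `C_K(a)`-part of `β^γ`. -/
theorem zb_comm (h : Fr K a b c) {β γ w s : G} (hβ : β ∈ Cz K b) (hβi : a * β * a = β⁻¹)
    (hγ : Mi K c b γ) (hsK : s ∈ K) (e : γ⁻¹ * β * γ = w * s) (hw : w * a = a * w)
    (hs : a * s * a = s⁻¹) :
    (c * (γ⁻¹ * β * γ)) * (b * w) = (b * w) * (c * (γ⁻¹ * β * γ)) := by
  have hwM := part_mi h hβ hβi hγ hsK e hw hs
  have hβc : c * β * c = β⁻¹ := h.inv_c (mem_Cz.1 hβ).2 hβi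
  have hk : c * (γ⁻¹ * β * γ) * c = (γ⁻¹ * β * γ)⁻¹ := by
    rw [cj_conj h.cc (mem_Cz.1 hγ.1).2, hβc]; group
  set k0 := γ⁻¹ * β * γ with hk0
  set v := b * w with hv
  have hvv : v * v = 1 := by
    calc v * v = (b * w * b) * w := by rw [hv]; group
      _ = 1 := by rw [hwM.2]; group
  have c1 : Commute b a := h.cab.symm
  have c2 : Commute w a := hw
  have hva : Commute v a := c1.mul_left c2
  have e1 : c * k0 = a * v * s := by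
    rw [e, hv, ← h.ab]; group
  have hz : (c * k0) * (c * k0) = 1 := by
    calc (c * k0) * (c * k0) = (c * k0 * c) * k0 := by group
      _ = 1 := by rw [hk]; group
  have e2 : v * s⁻¹ * v * s = 1 := by
    rw [e1] at hz
    calc v * s⁻¹ * v * s = v * (a * s * a) * v * s := by rw [hs]
      _ = (v * a) * s * a * v * s := by group
      _ = (a * v) * s * a * v * s := by rw [hva.eq]
      _ = (a * v * s) * (a * v * s) := by group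
      _ = 1 := hz
  have e3 : Commute v s := by
    have h3 : s⁻¹ * v * s = v := by
      calc s⁻¹ * v * s = v⁻¹ * (v * s⁻¹ * v * s) := by group
        _ = v := by rw [e2, mul_one, inv_of_sq hvv]
    show v * s = s * v
    calc v * s = s * (s⁻¹ * v * s) := by group
      _ = s * v := by rw [h3]
  have c4 : Commute v (a * v * s) := (hva.mul_right (Commute.refl v)).mul_right e3
  rw [e1]
  exact c4.eq.symm

/-- Two elements with the same part. -/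
theorem zb_two (h : Fr K a b c) {β β' γ w s s' : G} (hβ : β ∈ Cz K b) (hβi : a * β * a = β⁻¹)
    (hβ' : β' ∈ Cz K b) (hβi' : a * β' * a = β'⁻¹)
    (hγ : Mi K c b γ) (hsK : s ∈ K) (e : γ⁻¹ * β * γ = w * s) (hw : w * a = a * w)
    (hs : a * s * a = s⁻¹) (hsK' : s' ∈ K) (e' : γ⁻¹ * β' * γ = w * s')
    (hs' : a * s' * a = s'⁻¹) : β⁻¹ * β' ∈ Cz K (γ * (b * w) * γ⁻¹) := by
  refine mem_Cz.2 ⟨K.mul_mem (K.inv_mem (mem_Cz.1 hβ).1) (mem_Cz.1 hβ').1, ?_⟩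
  have hβc : c * β * c = β⁻¹ := h.inv_c (mem_Cz.1 hβ).2 hβi
  have hk : c * (γ⁻¹ * β * γ) * c = (γ⁻¹ * β * γ)⁻¹ := by
    rw [cj_conj h.cc (mem_Cz.1 hγ.1).2, hβc]; group
  have c1 : Commute (c * (γ⁻¹ * β * γ)) (b * w) := zb_comm h hβ hβi hγ hsK e hw hs
  have c2 : Commute (c * (γ⁻¹ * β' * γ)) (b * w) := zb_comm h hβ' hβi' hγ hsK' e' hw hs'
  have c3 := c1.mul_left c2
  have e1 : c * (γ⁻¹ * β * γ) * (c * (γ⁻¹ * β' * γ)) = γ⁻¹ * (β⁻¹ * β') * γ := by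
    calc c * (γ⁻¹ * β * γ) * (c * (γ⁻¹ * β' * γ))
        = (c * (γ⁻¹ * β * γ) * c) * (γ⁻¹ * β' * γ) := by group
      _ = (γ⁻¹ * β * γ)⁻¹ * (γ⁻¹ * β' * γ) := by rw [hk]
      _ = _ := by group
  rw [e1] at c3
  have c3' : γ⁻¹ * (β⁻¹ * β') * γ * (b * w) = b * w * (γ⁻¹ * (β⁻¹ * β') * γ) := c3
  calc β⁻¹ * β' * (γ * (b * w) * γ⁻¹) = γ * (γ⁻¹ * (β⁻¹ * β') * γ * (b * w)) * γ⁻¹ := by group
    _ = γ * (b * w * (γ⁻¹ * (β⁻¹ * β') * γ)) * γ⁻¹ := by rw [c3']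
    _ = γ * (b * w) * γ⁻¹ * (β⁻¹ * β') := by group

/-- Step 4. -/
theorem step4 (hS : ShuS.{u}) (h : Fr K a b c) (hN : NoLf K a b) (hF : (Fx K a b : Set G).Finite)
    (hab : Ab K b a) (hT : ∀ t, TT K a b c a t → t = 1) :
    ∃ M : Set G, M.Finite ∧ ∀ γ, Mi K c b γ → ∃ w ∈ M, Mi K a b w ∧
      (Cz K (γ * (b * w) * γ⁻¹)).relIndex (Cz K b) ≠ 0 := by
  classical
  obtain ⟨X, hX, hQ, hX2⟩ := xs_ex hS h hF
  set M : Set G := {w | Mi K a b w ∧ ∀ x ∈ X, w * x = x * w} with hM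
  have hMf : M.Finite := mfin hS h hF hT hX
  refine ⟨M, hMf, ?_⟩
  intro γ hγ
  let P : G → G → Prop := fun β w => β ∈ Cz K b ∧ a * β * a = β⁻¹ ∧
    ∃ s ∈ K, γ⁻¹ * β * γ = w * s ∧ w * a = a * w ∧ a * s * a = s⁻¹
  have hch : ∀ w : G, ∃ β₀ ∈ Cz K b, (∃ β, P β w) → P β₀ w := by
    intro w
    by_cases hw : ∃ β, P β w
    · obtain ⟨β, hβ⟩ := hw
      exact ⟨β, hβ.1, fun _ => hβ⟩
    · exact ⟨1, (Cz K b).one_mem, fun h => absurd h hw⟩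
  choose β₀ hβ₀ hβ₀P using hch
  obtain ⟨⟨f, w⟩, hfw, hrel⟩ := neum (D := Cz K b) ((Fx K a b : Set G) ×ˢ M)
    (hF.prod hMf) (fun p => p.1 * β₀ p.2)
    (by
      rintro ⟨f, w⟩ ⟨hf, -⟩
      have hf' : f ∈ Fx K a b := hf
      exact (Cz K b).mul_mem (mem_Cz.2 ⟨(mem_Fx.1 hf').1, (mem_Fx.1 hf').2.2⟩) (hβ₀ w))
    (fun p => Cz K (γ * (b * p.2) * γ⁻¹))
    (by
      intro d hd
      obtain ⟨f, β, hf, hβ, e, h1, h2⟩ := h.dec (X := Cz K b) cz_le h.aa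
        (fun u hu => h.cz_inv h.aa h.cab hu) hd
      obtain ⟨w, s, hw, hs, e1, h3, h4⟩ := h.dec (X := K) le_rfl h.aa
        (fun u hu => h.cjmem h.aa hu) (h.cjk (g := γ) (mem_Cz.1 hβ).1)
      have hP : P β w := ⟨hβ, h2, s, hs, e1, h3, h4⟩
      obtain ⟨q1, q2, s', q3, q4, q5, q6⟩ := hβ₀P w ⟨β, hP⟩
      refine ⟨(f, w), ⟨mem_Fx.2 ⟨(mem_Cz.1 hf).1, h1, (mem_Cz.1 hf).2⟩,
        part_mi h hβ h2 hγ hs e1 h3 h4, claim hS h hN hF hab hX hQ hX2 hβ h2 hγ hs e1 h3 h4⟩, ?_⟩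
      have e2 : (f * β₀ w)⁻¹ * d = (β₀ w)⁻¹ * β := by rw [e]; group
      show (f * β₀ w)⁻¹ * d ∈ _
      rw [e2]
      exact zb_two h q1 q2 hβ h2 hγ q3 q4 q5 q6 hs e1 h4)
  exact ⟨w, hfw.2, hfw.2.1, hrel⟩

/-- The orbit of `Lb` under `C_K(c)` is finite. -/
theorem orb_c (hS : ShuS.{u}) (h : Fr K a b c) (hN : NoLf K a b) (hF : (Fx K a b : Set G).Finite)
    (hab : Ab K b a) (hT : ∀ t, TT K a b c a t → t = 1) :
    (NS (Lb K b)).relIndex (Cz K c) ≠ 0 := by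
  classical
  obtain ⟨M, hMf, hM⟩ := step4 hS h hN hF hab hT
  have hch : ∀ w : G, ∃ j : ℕ, w ∈ K → w ^ j * w ^ j = w := by
    intro w
    by_cases hw : w ∈ K
    · obtain ⟨j, hj⟩ := (h.odd w hw).sqrt
      exact ⟨j, fun _ => hj⟩
    · exact ⟨0, fun h => absurd h hw⟩
  choose j hj using hch
  refine relIndex_of_cover ((fun w => w ^ j w) '' M) (hMf.image _) ?_
  intro g hg
  obtain ⟨f, γ, hf, hγ, e, h1, h2⟩ := h.dec (X := Cz K c) cz_le h.bb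
    (fun u hu => h.cz_inv h.bb h.cbc hu) hg
  have hfB : f ∈ Cz K b := mem_Cz.2 ⟨(mem_Cz.1 hf).1, h1⟩
  obtain ⟨w, hw, hwM, hrel⟩ := hM γ ⟨hγ, h2⟩
  refine ⟨w ^ j w, ⟨w, hw, rfl⟩, ?_⟩
  have hwK := (mem_Cz.1 hwM.1).1
  have hsq := hj w hwK
  have hk : w ^ j w * γ⁻¹ ∈ K := K.mul_mem (K.pow_mem hwK _) (K.inv_mem (mem_Cz.1 hγ).1)
  have hbw : b * w ^ j w * b = (w ^ j w)⁻¹ := conj_inv_pow h.bb hwM.2 _
  have e1 : (w ^ j w * γ⁻¹)⁻¹ * b * (w ^ j w * γ⁻¹) = γ * (b * w) * γ⁻¹ := by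
    calc (w ^ j w * γ⁻¹)⁻¹ * b * (w ^ j w * γ⁻¹)
        = γ * ((w ^ j w)⁻¹ * b * w ^ j w) * γ⁻¹ := by
          rw [mul_inv_rev, _root_.inv_inv]; simp only [mul_assoc]
      _ = γ * ((b * w ^ j w * b) * b * w ^ j w) * γ⁻¹ := by rw [hbw]
      _ = γ * (b * w ^ j w * (b * b) * w ^ j w) * γ⁻¹ := by simp only [mul_assoc]
      _ = γ * (b * (w ^ j w * w ^ j w)) * γ⁻¹ := by rw [h.bb, mul_one, mul_assoc b]
      _ = γ * (b * w) * γ⁻¹ := by rw [hsq]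
  have h3 : w ^ j w * γ⁻¹ ∈ NS (Lb K b) :=
    lb_ns h hk (lb_of h hk (by rw [e1]; exact hrel))
  have h4 := (NS (Lb K b)).mul_mem (cz_ns h hfB) ((NS (Lb K b)).inv_mem h3)
  have e2 : f * (w ^ j w * γ⁻¹)⁻¹ = g * (w ^ j w)⁻¹ := by
    rw [e, mul_inv_rev, _root_.inv_inv]; simp only [mul_assoc]
  rwa [e2] at h4

end Pool.Agent.FourGp.FF.Abo
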